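import Pool.Agent.Q209.FV.QQ

set_option autoImplicit false

/-! Abstract recurrence (project FV of helper109, MP_20afc1_co). -/

namespace Pool.Agent.Q209.FV

open Filter Topology Q109.FV

theorem desc_mul (n s t : ℕ) :
    (n.descFactorial s : ℝ) * ((n - s).descFactorial t : ℝ) = (n.descFactorial (s + t) : ℝ) := by
  have := Nat.descFactorial_mul_descFactorial (n := n) (k := s) (m := s + t) (by omega)
  rw [Nat.add_sub_cancel_left] at this
  rw [← this]
  push_cast
  ring

theorem sum_Icc (f : ℕ → ℝ) (c n : ℕ) :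
    ∑ k ∈ Finset.Icc c n, f k = ∑ j ∈ Finset.range (n + 1 - c), f (j + c) := by
  have h : Finset.Icc c n = Finset.Ico c (n + 1) := by
    ext k
    simp only [Finset.mem_Icc, Finset.mem_Ico]
    omega
  rw [h, Finset.sum_Ico_eq_sum_range]
  exact Finset.sum_congr rfl fun j _ => by rw [add_comm]

variable {a : ℝ} {s : ℕ} {z : ℕ → ℕ → ℝ}

/-- sums over larger ranges -/
theorem sum_range_big (h : ∀ n k : ℕ, n < k → z n k = 0) (f : ℕ → ℝ) (n m : ℕ) (hm : n < m) :
    ∑ k ∈ Finset.range m, f k * z n k = ∑ k ∈ Finset.range (n + 1), f k * z n k := by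
  symm
  apply Finset.sum_subset
  · intro k hk
    rw [Finset.mem_range] at hk ⊢
    omega
  · intro k _ hk
    rw [Finset.mem_range] at hk
    rw [h n k (by omega), mul_zero]

theorem an1 (H : HypZ a s z) (n : ℕ) (hn : s < n) : ∑ k ∈ Finset.Icc 1 n, a * k * z n k =
    (n.descFactorial s : ℝ) * ((n - s : ℕ) : ℝ) ^ (n - s - 1) := by
  obtain ⟨_, hs, _, _, hv, ht, hr⟩ := H
  rw [sum_Icc (fun k => a * k * z n k) 1 n, Nat.add_sub_cancel]
  have h1 : ∀ j ∈ Finset.range n, a * ((j + 1 : ℕ) : ℝ) * z n (j + 1) =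
      (n.descFactorial s : ℝ) * z (n - s) j := by
    intro j _
    rw [← hr n j]
    push_cast
    ring
  rw [Finset.sum_congr rfl h1, ← Finset.mul_sum]
  congr 1
  rw [← ht (n - s) (by omega)]
  have := sum_range_big hv (fun _ => (1 : ℝ)) (n - s) n (by omega)
  simpa using this

theorem an2 (H : HypZ a s z) (n : ℕ) (hn : 1 ≤ n) : ∑ k ∈ Finset.Icc 2 n, a * k * z n k ≤
    (2 * (s : ℝ) + 1) ^ 2 * Real.exp (-(2 * (s : ℝ))) * (n : ℝ) ^ (n - 1) := by
  obtain ⟨ha, hs, hz, h0, hv, ht, hr⟩ := H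
  have ha0 : 0 < a := by linarith
  have hn0 : (0 : ℝ) < n := by exact_mod_cast hn
  rw [sum_Icc (fun k => a * k * z n k) 2 n]
  -- each term
  have key : ∀ j : ℕ, a * (((j + 2 : ℕ) : ℝ)) * z n (j + 2) ≤
      1 / a * ((n.descFactorial (s + s) : ℝ) * z (n - s - s) j) := by
    intro j
    have e1 := hr n (j + 1)
    have e2 := hr (n - s) j
    have e3 : (n.descFactorial (s + s) : ℝ) * z (n - s - s) j =
        (n.descFactorial s : ℝ) * (a * ((j : ℝ) + 1) * z (n - s) (j + 1)) := by
      rw [← desc_mul n s s, e2]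
      ring
    have e4 : 1 / a * ((n.descFactorial (s + s) : ℝ) * z (n - s - s) j) =
        ((j : ℝ) + 1) * (a * (((j + 1 : ℕ) : ℝ) + 1) * z n (j + 1 + 1)) := by
      rw [e3, e1]
      field_simp
    rw [e4]
    have h1 : 0 ≤ a * (((j + 1 : ℕ) : ℝ) + 1) * z n (j + 1 + 1) :=
      mul_nonneg (by positivity) (hz _ _)
    have h2 : a * (((j + 2 : ℕ) : ℝ)) * z n (j + 2) =
        1 * (a * (((j + 1 : ℕ) : ℝ) + 1) * z n (j + 1 + 1)) := by
      push_cast
      ring
    rw [h2]
    refine mul_le_mul_of_nonneg_right ?_ h1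
    have : (0 : ℝ) ≤ j := Nat.cast_nonneg j
    linarith
  have h1 : ∑ j ∈ Finset.range (n + 1 - 2), a * (((j + 2 : ℕ) : ℝ)) * z n (j + 2) ≤
      1 / a * ((n.descFactorial (s + s) : ℝ) *
        ∑ j ∈ Finset.range (n + 1 - 2), z (n - s - s) j) := by
    rw [Finset.mul_sum, Finset.mul_sum]
    exact Finset.sum_le_sum fun j _ => key j
  refine h1.trans ?_
  by_cases hsn : s + s < n
  · have h2 : ∑ j ∈ Finset.range (n + 1 - 2), z (n - s - s) j =
        ((n - s - s : ℕ) : ℝ) ^ (n - s - s - 1) := by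
      rw [← ht (n - s - s) (by omega)]
      have := sum_range_big hv (fun _ => (1 : ℝ)) (n - s - s) (n + 1 - 2) (by omega)
      simpa using this
    rw [h2]
    have h3 := (q.1 n (s + s) hsn).2
    rw [div_le_iff₀ (by positivity), Nat.sub_add_eq] at h3
    push_cast at h3
    have e1 : ((s : ℝ) + s + 1) ^ 2 * Real.exp (-((s : ℝ) + s)) =
        (2 * (s : ℝ) + 1) ^ 2 * Real.exp (-(2 * (s : ℝ))) := by
      rw [show (s : ℝ) + s = 2 * s by ring]
    rw [e1] at h3
    have h4 : 1 / a ≤ 1 := by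
      rw [div_le_one ha0]
      exact ha
    have h5 : 0 ≤ (n.descFactorial (s + s) : ℝ) *
        ((n - s - s : ℕ) : ℝ) ^ (n - s - s - 1) := by positivity
    calc 1 / a * ((n.descFactorial (s + s) : ℝ) * ((n - s - s : ℕ) : ℝ) ^ (n - s - s - 1))
        ≤ 1 * ((n.descFactorial (s + s) : ℝ) * ((n - s - s : ℕ) : ℝ) ^ (n - s - s - 1)) :=
          mul_le_mul_of_nonneg_right h4 h5
      _ ≤ _ := by rw [one_mul]; exact h3
  · have h2 : (n.descFactorial (s + s) : ℝ) *
        ∑ j ∈ Finset.range (n + 1 - 2), z (n - s - s) j = 0 := by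
      rw [Finset.sum_eq_zero, mul_zero]
      intro j _
      rw [show n - s - s = 0 by omega]
      exact h0 j
    rw [h2, mul_zero]
    positivity

/-- factorial moments -/
theorem moment (H : HypZ a s z) (j : ℕ) : ∀ n : ℕ,
    ∑ k ∈ Finset.range (n + 1), ((k.choose j : ℕ) : ℝ) * z n k =
      if j * s < n then (n.descFactorial (j * s) : ℝ) *
        ((n - j * s : ℕ) : ℝ) ^ (n - j * s - 1) / (j.factorial * a ^ j) else 0 := by
  obtain ⟨ha, hs, hz, h0, hv, ht, hr⟩ := H
  have ha0 : 0 < a := by linarith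
  induction j with
  | zero =>
    intro n
    rcases Nat.eq_zero_or_pos n with rfl | hn
    · simp [h0]
    · rw [if_pos (by omega)]
      simp only [Nat.choose_zero_right, Nat.cast_one, one_mul, zero_mul, Nat.descFactorial_zero,
        Nat.sub_zero, Nat.factorial_zero, pow_zero, mul_one, div_one]
      exact ht n hn
  | succ j ih =>
    intro n
    have h1 : ∑ k ∈ Finset.range (n + 1), ((k.choose (j + 1) : ℕ) : ℝ) * z n k =
        1 / (((j : ℝ) + 1) * a) * ((n.descFactorial s : ℝ) *
          ∑ k ∈ Finset.range n, ((k.choose j : ℕ) : ℝ) * z (n - s) k) := by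
      rw [Finset.sum_range_succ', Nat.choose_zero_succ, Nat.cast_zero, zero_mul, add_zero,
        Finset.mul_sum, Finset.mul_sum]
      refine Finset.sum_congr rfl fun k _ => ?_
      have e1 : (((k + 1).choose (j + 1) : ℕ) : ℝ) * ((j : ℝ) + 1) =
          ((k : ℝ) + 1) * (k.choose j : ℝ) := by
        have := Nat.add_one_mul_choose_eq k j
        exact_mod_cast this.symm
      have e2 := hr n k
      have e3 : (n.descFactorial s : ℝ) * (((k.choose j : ℕ) : ℝ) * z (n - s) k) =
          ((k.choose j : ℕ) : ℝ) * (a * ((k : ℝ) + 1) * z n (k + 1)) := by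
        rw [e2]
        ring
      rw [e3]
      have hj : ((j : ℝ) + 1) ≠ 0 := by positivity
      rw [eq_comm, one_div, inv_mul_eq_iff_eq_mul₀ (mul_ne_zero hj ha0.ne')]
      calc ((k.choose j : ℕ) : ℝ) * (a * ((k : ℝ) + 1) * z n (k + 1))
          = (((k : ℝ) + 1) * (k.choose j : ℝ)) * (a * z n (k + 1)) := by ring
        _ = _ := by rw [← e1]; ring
    rw [h1]
    by_cases hn : n < s
    · rw [Nat.descFactorial_eq_zero_iff_lt.2 hn]
      rw [if_neg (by nlinarith)]
      simp
    · push Not at hn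
      rcases Nat.eq_zero_or_pos n with hn0 | hn0
      · omega
      rw [sum_range_big hv (fun k => ((k.choose j : ℕ) : ℝ)) (n - s) n (by omega), ih (n - s)]
      have e0 : (j + 1) * s = s + j * s := by ring
      by_cases hj : j * s < n - s
      · rw [if_pos hj, if_pos (by omega), e0, ← desc_mul n s (j * s), Nat.sub_add_eq]
        rw [Nat.factorial_succ, pow_succ]
        push_cast
        field_simp
      · rw [if_neg hj, if_neg (by omega)]
        simp

theorem sq_exp_le (x : ℝ) (hx : 0 ≤ x) : (x + 1) ^ 2 * Real.exp (-x) ≤ 4 := by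
  have h1 : x + 1 ≤ 2 * Real.exp (x / 2) := by
    have := Real.add_one_le_exp (x / 2)
    linarith
  have h2 : (x + 1) ^ 2 ≤ 4 * Real.exp x := by
    calc (x + 1) ^ 2 ≤ (2 * Real.exp (x / 2)) ^ 2 := pow_le_pow_left₀ (by linarith) h1 2
      _ = 4 * Real.exp x := by
        rw [mul_pow, ← Real.exp_nat_mul]
        congr 1
        · norm_num
        · congr 1
          push_cast
          ring
  calc (x + 1) ^ 2 * Real.exp (-x) ≤ 4 * Real.exp x * Real.exp (-x) :=
        mul_le_mul_of_nonneg_right h2 (Real.exp_pos _).le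
    _ = 4 := by
        rw [mul_assoc, ← Real.exp_add, add_neg_cancel, Real.exp_zero, mul_one]

theorem exp_tsum (x : ℝ) : Real.exp x = ∑' j : ℕ, x ^ j / (j.factorial : ℝ) := by
  rw [Real.exp_eq_exp_ℝ, NormedSpace.exp_eq_tsum_div]

theorem an0 (H : HypZ a s z) : Tendsto (fun n : ℕ => z n 0 / (n : ℝ) ^ (n - 1)) atTop
    (𝓝 (Real.exp (-(Real.exp (-(s : ℝ)) / a)))) := by
  have H' := H
  obtain ⟨ha, hs, hz, h0, hv, ht, hr⟩ := H'
  have ha0 : 0 < a := by linarith
  set F : ℕ → ℕ → ℝ := fun n j => (-1) ^ j * ((if j * s < n then (n.descFactorial (j * s) : ℝ) *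
        ((n - j * s : ℕ) : ℝ) ^ (n - j * s - 1) / (j.factorial * a ^ j) else 0) /
          (n : ℝ) ^ (n - 1)) with hF
  have hzF : ∀ n, z n 0 / (n : ℝ) ^ (n - 1) = ∑' j, F n j := by
    intro n
    have h1 : ∑' j, F n j = ∑ j ∈ Finset.range (n + 1), F n j := by
      apply tsum_eq_sum
      intro j hj
      rw [Finset.mem_range] at hj
      simp only [hF]
      rw [if_neg (by nlinarith), zero_div, mul_zero]
    rw [h1]
    have h2 : ∀ j, F n j = (∑ k ∈ Finset.range (n + 1), ((-1) ^ j * ((k.choose j : ℕ) : ℝ)) *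
        z n k) / (n : ℝ) ^ (n - 1) := by
      intro j
      simp only [hF]
      rw [← moment H j n, mul_div_assoc', Finset.mul_sum]
      congr 1
      refine Finset.sum_congr rfl fun k _ => ?_
      ring
    rw [Finset.sum_congr rfl fun j _ => h2 j, ← Finset.sum_div, Finset.sum_comm]
    congr 1
    have h3 : ∀ k ∈ Finset.range (n + 1), ∑ j ∈ Finset.range (n + 1),
        ((-1) ^ j * ((k.choose j : ℕ) : ℝ)) * z n k = if k = 0 then z n 0 else 0 := by
      intro k hk
      rw [← Finset.sum_mul]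
      have h4 : ∑ j ∈ Finset.range (n + 1), ((-1 : ℝ)) ^ j * ((k.choose j : ℕ) : ℝ) =
          ∑ j ∈ Finset.range (k + 1), ((-1 : ℝ)) ^ j * ((k.choose j : ℕ) : ℝ) := by
        symm
        apply Finset.sum_subset
        · intro j hj
          rw [Finset.mem_range] at hj hk ⊢
          omega
        · intro j _ hj
          rw [Finset.mem_range] at hj
          rw [Nat.choose_eq_zero_of_lt (by omega), Nat.cast_zero, mul_zero]
      have h5 : ∑ j ∈ Finset.range (k + 1), ((-1 : ℝ)) ^ j * ((k.choose j : ℕ) : ℝ) =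
          if k = 0 then 1 else 0 := by
        have := Int.alternating_sum_range_choose (n := k)
        have h6 := congrArg (fun x : ℤ => (x : ℝ)) this
        push_cast at h6
        rw [h6]
      rw [h4, h5]
      split_ifs with h
      · rw [one_mul, h]
      · rw [zero_mul]
    rw [Finset.sum_congr rfl h3, Finset.sum_ite_eq' (Finset.range (n + 1)) 0]
    simp
  simp only [hzF]
  have hlim : Real.exp (-(Real.exp (-(s : ℝ)) / a)) =
      ∑' j : ℕ, (-1) ^ j * (Real.exp (-((j * s : ℕ) : ℝ)) / (j.factorial * a ^ j)) := by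
    refine (exp_tsum _).trans (tsum_congr fun j => ?_)
    rw [neg_pow, div_pow, ← Real.exp_nat_mul]
    have : Real.exp ((j : ℝ) * -(s : ℝ)) = Real.exp (-((j * s : ℕ) : ℝ)) := by
      congr 1
      push_cast
      ring
    rw [this]
    field_simp
  rw [hlim]
  refine tendsto_tsum_of_dominated_convergence (bound := fun j => 4 * (1 ^ j / j.factorial))
    ((Real.summable_pow_div_factorial 1).mul_left 4) ?_ ?_
  · intro j
    refine Tendsto.const_mul _ ?_
    have h1 := ((q.2 (j * s)).div_const ((j.factorial : ℝ) * a ^ j))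
    refine h1.congr' ?_
    filter_upwards [eventually_gt_atTop (j * s)] with n hn
    rw [if_pos hn]
    ring
  · filter_upwards [eventually_ge_atTop 1] with n hn j
    simp only [hF]
    rw [norm_mul, norm_pow, norm_neg, norm_one, one_pow, one_mul]
    by_cases hj : j * s < n
    · rw [if_pos hj]
      have h1 := (q.1 n (j * s) hj).2
      have h2 := sq_exp_le ((j * s : ℕ) : ℝ) (Nat.cast_nonneg _)
      have h3 := h1.trans h2
      have hn0 : (0 : ℝ) < n := by exact_mod_cast hn
      rw [Real.norm_of_nonneg (by positivity), div_right_comm, mul_one_div]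
      have h4 : (j.factorial : ℝ) ≤ j.factorial * a ^ j := by
        have : 1 ≤ a ^ j := one_le_pow₀ ha
        have h5 : (0 : ℝ) < j.factorial := by exact_mod_cast Nat.factorial_pos j
        nlinarith
      exact div_le_div₀ (by norm_num) h3 (by exact_mod_cast Nat.factorial_pos j) h4
    · rw [if_neg hj]
      simp only [zero_div, norm_zero]
      positivity

theorem an : S_AN := by
  intro a s z H
  refine ⟨an1 H, an2 H, ?_⟩
  have H' := H
  obtain ⟨ha, hs, hz, h0, hv, ht, hr⟩ := H'
  have h1 := an0 H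
  have h2 : Tendsto (fun n : ℕ => z (n - s) 0 / (((n - s : ℕ) : ℝ)) ^ (n - s - 1)) atTop
      (𝓝 (Real.exp (-(Real.exp (-(s : ℝ)) / a)))) :=
    h1.comp (tendsto_sub_atTop_nat s)
  have h3 := (q.2 s).mul (h2.const_sub 1)
  refine h3.congr' ?_
  filter_upwards [eventually_gt_atTop s] with n hn
  have hns : (0 : ℝ) < ((n - s : ℕ) : ℝ) := by
    have : 0 < n - s := by omega
    exact_mod_cast this
  have h4 : ∑ k ∈ Finset.Icc 2 n, a * k * z n k = (n.descFactorial s : ℝ) *
      ((n - s : ℕ) : ℝ) ^ (n - s - 1) - (n.descFactorial s : ℝ) * z (n - s) 0 := by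
    have h5 := an1 H n hn
    have h6 := hr n 0
    have h7 : ∑ k ∈ Finset.Icc 1 n, a * k * z n k =
        a * (1 : ℕ) * z n 1 + ∑ k ∈ Finset.Icc 2 n, a * k * z n k := by
      rw [sum_Icc (fun k => a * k * z n k) 1 n, sum_Icc (fun k => a * k * z n k) 2 n,
        Nat.add_sub_cancel]
      obtain ⟨m, rfl⟩ : ∃ m, n = m + 1 := ⟨n - 1, by omega⟩
      rw [Finset.sum_range_succ', show m + 1 + 1 - 2 = m by omega, add_comm]
    rw [h7] at h5
    push_cast at h5 h6
    rw [zero_add, mul_one] at h6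
    linarith
  rw [h4]
  field_simp

end Pool.Agent.Q209.FV
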