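import Pool.Agent.Q109.FV.Stm

set_option autoImplicit false

/-! Copies of rooted trees in branches (project FV of helper109, MP_20afc1_co). -/

namespace Pool.Agent.Q209.FV

open Q109.FV

variable {S V : Type} {t : SimpleGraph S} {r : S} {T : SimpleGraph V} {u : V}

/-- two copies with the same range differ by an automorphism -/
theorem exists_aut (f g : S → V) (hf : Function.Injective f) (hg : Function.Injective g)
    (hr : Set.range f = Set.range g) (hfa : ∀ a b, T.Adj (f a) (f b) ↔ t.Adj a b)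
    (hga : ∀ a b, T.Adj (g a) (g b) ↔ t.Adj a b) (h : f r = g r) :
    ∃ σ : t ≃g t, σ r = r ∧ ∀ a, g (σ a) = f a := by
  let e : S ≃ S := (Equiv.ofInjective f hf).trans
    ((Equiv.setCongr hr).trans (Equiv.ofInjective g hg).symm)
  have he : ∀ a, g (e a) = f a := by
    intro a
    change g ((Equiv.ofInjective g hg).symm ((Equiv.setCongr hr) (Equiv.ofInjective f hf a))) = _
    rw [Equiv.apply_ofInjective_symm hg]
    rfl
  refine ⟨⟨e, ?_⟩, ?_, he⟩
  · intro a b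
    rw [← hga, he, he, hfa]
  · apply hg
    change g (e r) = g r
    rw [he, h]

theorem copy_comp {φ : S → V} (h : IsCopy t r T u φ) (σ : t ≃g t) (hσ : σ r = r) :
    IsCopy t r T u (φ ∘ σ) := by
  obtain ⟨h1, h2, h3, h4⟩ := h
  refine ⟨h1.comp σ.injective, ?_, ?_, ?_⟩
  · change T.Adj u (φ (σ r))
    rw [hσ]
    exact h2
  · change _ = Br T u (φ (σ r))
    rw [hσ, ← h3, σ.surjective.range_comp]
  · intro a b
    change T.Adj (φ (σ a)) (φ (σ b)) ↔ _
    rw [h4, σ.map_adj_iff]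

theorem card_copies [Finite S] [Finite V] :
    Nat.card {φ : S → V // IsCopy t r T u φ} = aut t r * mult t r T u := by
  classical
  unfold aut mult
  rw [← Nat.card_prod]
  symm
  refine Nat.card_congr (Equiv.ofBijective (fun p : {σ : t ≃g t // σ r = r} ×
    {x : V // ∃ φ : S → V, IsCopy t r T u φ ∧ φ r = x} =>
      (⟨p.2.2.choose ∘ p.1.1, copy_comp p.2.2.choose_spec.1 p.1.1 p.1.2⟩ :
        {φ : S → V // IsCopy t r T u φ})) ⟨?_, ?_⟩)
  · rintro ⟨⟨σ, hσ⟩, ⟨x, hx⟩⟩ ⟨⟨σ', hσ'⟩, ⟨x', hx'⟩⟩ h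
    have h1 : ∀ a, hx.choose (σ a) = hx'.choose (σ' a) := fun a =>
      congrFun (congrArg Subtype.val h) a
    have hxx : x = x' := by
      have := h1 r
      rw [hσ, hσ', hx.choose_spec.2, hx'.choose_spec.2] at this
      exact this
    subst hxx
    have hss : σ = σ' := by
      ext a
      exact hx.choose_spec.1.1 (h1 a)
    subst hss
    rfl
  · rintro ⟨φ, hφ⟩
    have hx : ∃ ψ : S → V, IsCopy t r T u ψ ∧ ψ r = φ r := ⟨φ, hφ, rfl⟩
    obtain ⟨σ, hσ, hσ2⟩ := exists_aut (T := T) (t := t) (r := r) φ hx.choose hφ.1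
      hx.choose_spec.1.1 (by rw [hφ.2.2.1, hx.choose_spec.1.2.2.1, hx.choose_spec.2])
      hφ.2.2.2 hx.choose_spec.1.2.2.2 hx.choose_spec.2.symm
    refine ⟨⟨⟨σ, hσ⟩, ⟨φ r, hx⟩⟩, ?_⟩
    apply Subtype.ext
    funext a
    exact hσ2 a

theorem ext_apply {φ ψ : S → V} (hφ : Function.Injective φ) (a : S) :
    Function.extend φ ψ id (φ a) = ψ a := hφ.extend_apply ψ id a

/-- the extension of a map of copies is an isomorphism of the branches -/
theorem biso_extend {φ ψ : S → V} {A B : Set V} (hφ : Function.Injective φ)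
    (hψ : Function.Injective ψ) (hA : Set.range φ = A) (hB : Set.range ψ = B)
    (h1 : ∀ a b, T.Adj (φ a) (φ b) ↔ t.Adj a b) (h2 : ∀ a b, T.Adj (ψ a) (ψ b) ↔ t.Adj a b) :
    BIso T A B (Function.extend φ ψ id) := by
  subst hA
  subst hB
  refine ⟨⟨?_, ?_, ?_⟩, ?_⟩
  · rintro _ ⟨a, rfl⟩
    rw [ext_apply hφ]
    exact ⟨a, rfl⟩
  · rintro _ ⟨a, rfl⟩ _ ⟨b, rfl⟩ h
    rw [ext_apply hφ, ext_apply hφ] at h
    rw [hψ h]
  · rintro _ ⟨a, rfl⟩
    exact ⟨φ a, ⟨a, rfl⟩, ext_apply hφ a⟩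
  · rintro _ ⟨a, rfl⟩ _ ⟨b, rfl⟩
    rw [ext_apply hφ, ext_apply hφ, h1, h2]

theorem cop : S_COP := by
  intro S V _ _ t r T u
  refine ⟨card_copies, fun φ hφ => ⟨?_, ?_⟩⟩
  · have hmult : 2 ≤ mult t r T u ↔
        ∃ x' : V, x' ≠ φ r ∧ ∃ φ' : S → V, IsCopy t r T u φ' ∧ φ' r = x' := by
      unfold mult
      rw [show (2 : ℕ) ≤ _ ↔ 1 < _ from Iff.rfl, Finite.one_lt_card_iff_nontrivial]
      constructor
      · intro h
        obtain ⟨⟨y, hy⟩, hne⟩ := exists_ne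
          (⟨φ r, φ, hφ, rfl⟩ : {x : V // ∃ φ : S → V, IsCopy t r T u φ ∧ φ r = x})
        exact ⟨y, fun h => hne (Subtype.ext h), hy⟩
      · rintro ⟨x', hne, hx'⟩
        exact ⟨⟨⟨x', hx'⟩, ⟨φ r, φ, hφ, rfl⟩, fun h => hne (congrArg Subtype.val h)⟩⟩
    rw [hmult]
    constructor
    · rintro ⟨_, x', ψ, hne, hadj, hB, hx⟩
      refine ⟨x', hne, ψ ∘ φ, ⟨?_, ?_, ?_, ?_⟩, hx⟩
      · intro a b h
        apply hφ.1
        exact hB.1.2.1 (by rw [← hφ.2.2.1]; exact ⟨a, rfl⟩) (by rw [← hφ.2.2.1]; exact ⟨b, rfl⟩) h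
      · change T.Adj u (ψ (φ r))
        rw [hx]
        exact hadj
      · change _ = Br T u (ψ (φ r))
        rw [Set.range_comp, hφ.2.2.1, hB.1.image_eq, hx]
      · intro a b
        change T.Adj (ψ (φ a)) (ψ (φ b)) ↔ _
        rw [hB.2 _ (by rw [← hφ.2.2.1]; exact ⟨a, rfl⟩) _ (by rw [← hφ.2.2.1]; exact ⟨b, rfl⟩),
          hφ.2.2.2]
    · rintro ⟨x', hne, φ', hφ', rfl⟩
      refine ⟨hφ.2.1, φ' r, Function.extend φ φ' id, hne, hφ'.2.1, ?_, ext_apply hφ.1 r⟩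
      exact biso_extend hφ.1 hφ'.1 hφ.2.2.1 hφ'.2.2.1 hφ.2.2.2 hφ'.2.2.2
  · unfold rfix
    symm
    have key : ∀ v : S, φ v ∈ BF T u (φ r) ↔ ∀ σ : t ≃g t, σ r = r → σ v = v := by
      intro v
      constructor
      · rintro ⟨_, h⟩ σ hσ
        have hc := copy_comp hφ σ hσ
        have hr : (φ ∘ σ) r = φ r := congrArg φ hσ
        have h1 := h (Function.extend φ (φ ∘ σ) id)
          (biso_extend hφ.1 hc.1 hφ.2.2.1 (by rw [hc.2.2.1, hr]) hφ.2.2.2 hc.2.2.2)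
          (by rw [ext_apply hφ.1]; exact hr)
        rw [ext_apply hφ.1] at h1
        exact hφ.1 h1
      · intro h
        refine ⟨by rw [← hφ.2.2.1]; exact ⟨v, rfl⟩, fun ψ hψ hx => ?_⟩
        have hm : ∀ a, φ a ∈ Br T u (φ r) := fun a => by rw [← hφ.2.2.1]; exact ⟨a, rfl⟩
        obtain ⟨σ, hσ, hσ2⟩ := exists_aut (T := T) (t := t) (r := r) (ψ ∘ φ) φ
          (fun a b h => hφ.1 (hψ.1.2.1 (hm a) (hm b) h)) hφ.1
          (by rw [Set.range_comp, hφ.2.2.1, hψ.1.image_eq])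
          (fun a b => by
            change T.Adj (ψ (φ a)) (ψ (φ b)) ↔ _
            rw [hψ.2 _ (hm a) _ (hm b), hφ.2.2.2]) hφ.2.2.2 hx
        have := hσ2 v
        rw [h σ hσ] at this
        exact this.symm
    refine Nat.card_congr (Equiv.ofBijective
      (fun v : {v : S // ∀ σ : t ≃g t, σ r = r → σ v = v} =>
        (⟨φ v.1, (key v.1).2 v.2⟩ : BF T u (φ r))) ⟨?_, ?_⟩)
    · intro a b h
      exact Subtype.ext (hφ.1 (congrArg Subtype.val h))
    · rintro ⟨w, hw⟩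
      have : w ∈ Set.range φ := by rw [hφ.2.2.1]; exact hw.1
      obtain ⟨a, rfl⟩ := this
      exact ⟨⟨a, (key a).1 hw⟩, rfl⟩

end Pool.Agent.Q209.FV
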