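import Pool.Agent.Q209.FV.Cop

set_option autoImplicit false

/-! Gluing a rooted tree to a vertex (project FV of helper109, MP_20afc1_co). -/

namespace Pool.Agent.Q209.FV

open Q109.FV

variable {S V : Type}

/-- the complement of the range -/
abbrev Wt (φ : S → V) : Type := {v : V // v ∉ Set.range φ}

section glue

variable (t : SimpleGraph S) (r : S) (φ : S → V) (hφ : Function.Injective φ)
  (T₁ : SimpleGraph (Wt φ)) (u : Wt φ)

/-- the glued graph -/
def glu : SimpleGraph V :=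
  T₁.map (Function.Embedding.subtype fun v => v ∉ Set.range φ) ⊔
    t.map (⟨φ, hφ⟩ : S ↪ V) ⊔ SimpleGraph.edge u.1 (φ r)

theorem glu_adj (a b : V) : (glu t r φ hφ T₁ u).Adj a b ↔
    (∃ a' b' : Wt φ, T₁.Adj a' b' ∧ a'.1 = a ∧ b'.1 = b) ∨
    (∃ i j, t.Adj i j ∧ φ i = a ∧ φ j = b) ∨ (a = u.1 ∧ b = φ r) ∨ (a = φ r ∧ b = u.1) := by
  have hne : u.1 ≠ φ r := fun h => u.2 ⟨r, h.symm⟩
  unfold glu
  rw [SimpleGraph.sup_adj, SimpleGraph.sup_adj, SimpleGraph.map_adj, SimpleGraph.map_adj,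
    SimpleGraph.edge_adj, or_assoc]
  refine or_congr Iff.rfl (or_congr Iff.rfl ?_)
  constructor
  · rintro ⟨h, _⟩
    exact h
  · intro h
    refine ⟨h, ?_⟩
    rcases h with ⟨rfl, rfl⟩ | ⟨rfl, rfl⟩
    · exact hne
    · exact hne.symm

theorem glu_W (a b : Wt φ) : (glu t r φ hφ T₁ u).Adj a.1 b.1 ↔ T₁.Adj a b := by
  rw [glu_adj]
  constructor
  · rintro (⟨a', b', h, h1, h2⟩ | ⟨i, j, _, h1, _⟩ | ⟨_, h2⟩ | ⟨h1, _⟩)
    · rw [← Subtype.ext h1, ← Subtype.ext h2]
      exact h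
    · exact absurd ⟨i, h1⟩ a.2
    · exact absurd ⟨r, h2.symm⟩ b.2
    · exact absurd ⟨r, h1.symm⟩ a.2
  · intro h
    exact Or.inl ⟨a, b, h, rfl, rfl⟩

theorem glu_S (i j : S) : (glu t r φ hφ T₁ u).Adj (φ i) (φ j) ↔ t.Adj i j := by
  rw [glu_adj]
  constructor
  · rintro (⟨a', b', _, h1, _⟩ | ⟨i', j', h, h1, h2⟩ | ⟨h1, _⟩ | ⟨_, h2⟩)
    · exact absurd ⟨i, h1.symm⟩ a'.2
    · rw [← hφ h1, ← hφ h2]
      exact h
    · exact absurd ⟨i, h1⟩ u.2
    · exact absurd ⟨j, h2⟩ u.2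
  · intro h
    exact Or.inr (Or.inl ⟨i, j, h, rfl, rfl⟩)

theorem glu_root : (glu t r φ hφ T₁ u).Adj u.1 (φ r) := by
  rw [glu_adj]
  exact Or.inr (Or.inr (Or.inl ⟨rfl, rfl⟩))

theorem glu_conn (ht : t.Connected) (h1 : T₁.Connected) : (glu t r φ hφ T₁ u).Connected := by
  set G := glu t r φ hφ T₁ u with hG
  have hreach : ∀ v, G.Reachable u.1 v := by
    intro v
    by_cases hv : v ∈ Set.range φ
    · obtain ⟨i, rfl⟩ := hv
      have h2 : t.Reachable r i := ht.preconnected r i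
      have h3 : G.Reachable (φ r) (φ i) := by
        exact SimpleGraph.Reachable.map
          (⟨φ, fun {a b} h => (glu_S t r φ hφ T₁ u a b).2 h⟩ : t →g G) h2
      exact (glu_root t r φ hφ T₁ u).reachable.trans h3
    · have h2 : T₁.Reachable u ⟨v, hv⟩ := h1.preconnected u ⟨v, hv⟩
      exact SimpleGraph.Reachable.map
        (⟨Subtype.val, fun {a b} h => (glu_W t r φ hφ T₁ u a b).2 h⟩ : T₁ →g G) h2
  have : Nonempty V := ⟨u.1⟩
  exact SimpleGraph.Connected.mk fun a b => (hreach a).symm.trans (hreach b)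

theorem glu_tree [Finite S] [Finite V] (ht : t.IsTree) (h1 : T₁.IsTree) :
    (glu t r φ hφ T₁ u).IsTree := by
  classical
  rw [SimpleGraph.isTree_iff_connected_and_card]
  have hc := glu_conn t r φ hφ T₁ u ht.connected h1.connected
  refine ⟨hc, le_antisymm ?_ hc.card_vert_le_card_edgeSet_add_one⟩
  have e1 := (SimpleGraph.isTree_iff_connected_and_card.1 ht).2
  have e2 := (SimpleGraph.isTree_iff_connected_and_card.1 h1).2
  have e3 : Nat.card (Wt φ) + Nat.card S = Nat.card V := by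
    have := Fintype.ofFinite V
    have := Fintype.ofFinite S
    have h2 : Nat.card S = Nat.card {v : V // v ∈ Set.range φ} :=
      Nat.card_congr (Equiv.ofInjective φ hφ)
    rw [h2, add_comm, ← Nat.card_sum]
    exact Nat.card_congr (Equiv.sumCompl fun v => v ∈ Set.range φ)
  have e4 : Nat.card (glu t r φ hφ T₁ u).edgeSet ≤
      Nat.card T₁.edgeSet + Nat.card t.edgeSet + 1 := by
    rw [Nat.card_coe_set_eq, Nat.card_coe_set_eq, Nat.card_coe_set_eq]
    unfold glu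
    rw [SimpleGraph.edgeSet_sup, SimpleGraph.edgeSet_sup, SimpleGraph.edgeSet_map,
      SimpleGraph.edgeSet_map]
    refine (Set.ncard_union_le _ _).trans (add_le_add ((Set.ncard_union_le _ _).trans
      (add_le_add ?_ ?_)) ?_)
    · exact Set.ncard_image_le (Set.toFinite _)
    · exact Set.ncard_image_le (Set.toFinite _)
    · have := Set.ncard_le_ncard (SimpleGraph.edgeSet_edge_subset (v := u.1) (w := φ r))
        (Set.toFinite _)
      rwa [Set.ncard_singleton] at this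
  omega

theorem glu_Br (ht : t.Connected) : Set.range φ = Br (glu t r φ hφ T₁ u) u.1 (φ r) := by
  set G := glu t r φ hφ T₁ u with hG
  have hne : ∀ i, φ i ≠ u.1 := fun i h => u.2 ⟨i, h⟩
  ext w
  constructor
  · rintro ⟨i, rfl⟩
    have h2 : t.Reachable r i := ht.preconnected r i
    exact SimpleGraph.Reachable.map
      (⟨φ, fun {a b} h => by
        rw [SimpleGraph.deleteEdges_adj]
        refine ⟨(glu_S t r φ hφ T₁ u a b).2 h, ?_⟩
        rw [Set.mem_singleton_iff, Sym2.eq_iff]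
        rintro (⟨h1, _⟩ | ⟨_, h1⟩)
        · exact hne _ h1
        · exact hne _ h1⟩ : t →g G.deleteEdges {s(u.1, φ r)}) h2
  · intro hw
    change (G.deleteEdges {s(u.1, φ r)}).Reachable (φ r) w at hw
    rw [SimpleGraph.reachable_iff_reflTransGen] at hw
    induction hw with
    | refl => exact ⟨r, rfl⟩
    | tail _ h ih =>
      obtain ⟨i, rfl⟩ := ih
      rw [SimpleGraph.deleteEdges_adj, glu_adj] at h
      obtain ⟨h1, h2⟩ := h
      rcases h1 with ⟨a', b', _, h3, _⟩ | ⟨i', j', _, _, h4⟩ | ⟨h3, _⟩ | ⟨h3, h4⟩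
      · exact absurd ⟨i, h3.symm⟩ a'.2
      · exact ⟨j', h4⟩
      · exact absurd h3 (hne i)
      · exfalso
        apply h2
        rw [Set.mem_singleton_iff, h3, h4, Sym2.eq_swap]

theorem glu_copy (ht : t.Connected) : IsCopy t r (glu t r φ hφ T₁ u) u.1 φ :=
  ⟨hφ, glu_root t r φ hφ T₁ u, glu_Br t r φ hφ T₁ u ht, glu_S t r φ hφ T₁ u⟩

theorem glu_comap : (glu t r φ hφ T₁ u).comap (Subtype.val : Wt φ → V) = T₁ := by
  ext a b
  exact glu_W t r φ hφ T₁ u a b

end glue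

section mult

variable {t : SimpleGraph S} {r : S} {φ : S → V} {T : SimpleGraph V} {u : V}

theorem copy_notMem (hBR : S_BR) (hT : T.IsTree) (h : IsCopy t r T u φ) : u ∉ Set.range φ := by
  rw [h.2.2.1]
  exact (hBR V T hT u _ h.2.1).1

theorem copy_edge (hBR : S_BR) (hT : T.IsTree) (h : IsCopy t r T u φ) (a b : V)
    (hab : T.Adj a b) (ha : a ∈ Set.range φ) (hb : b ∉ Set.range φ) : a = φ r ∧ b = u := by
  rw [h.2.2.1] at ha hb
  exact (hBR V T hT u _ h.2.1).2.2.2.2.1 a b hab ha hb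

/-- the branches in the smaller tree -/
theorem Br_comap (T : SimpleGraph V) (φ : S → V) (u x : Wt φ)
    (hd : Br T u.1 x.1 ⊆ (Set.range φ)ᶜ) (w : Wt φ) :
    w ∈ Br (T.comap (Subtype.val : Wt φ → V)) u x ↔ w.1 ∈ Br T u.1 x.1 := by
  have hs : ∀ a b : Wt φ, s(a.1, b.1) = s(u.1, x.1) ↔ s(a, b) = s(u, x) := by
    intro a b
    rw [Sym2.eq_iff, Sym2.eq_iff, Subtype.ext_iff, Subtype.ext_iff, Subtype.ext_iff,
      Subtype.ext_iff]
  constructor
  · intro h
    exact SimpleGraph.Reachable.map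
      (⟨Subtype.val, fun {a b} h => by
        rw [SimpleGraph.deleteEdges_adj] at h ⊢
        refine ⟨h.1, fun h1 => h.2 ?_⟩
        rw [Set.mem_singleton_iff] at h1 ⊢
        exact (hs a b).1 h1⟩ :
        (T.comap (Subtype.val : Wt φ → V)).deleteEdges {s(u, x)} →g
          T.deleteEdges {s(u.1, x.1)}) h
  · intro h
    have key : ∀ v : V, (T.deleteEdges {s(u.1, x.1)}).Reachable x.1 v →
        ∃ hv : v ∉ Set.range φ,
          ((T.comap (Subtype.val : Wt φ → V)).deleteEdges {s(u, x)}).Reachable x ⟨v, hv⟩ := by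
      intro v hv
      have hv' := hv
      rw [SimpleGraph.reachable_iff_reflTransGen] at hv
      induction hv with
      | refl => exact ⟨x.2, SimpleGraph.Reachable.refl _⟩
      | tail h1 h2 ih =>
        rename_i b c
        obtain ⟨hb, hb2⟩ := ih ((SimpleGraph.reachable_iff_reflTransGen _ _).2 h1)
        have hc : c ∉ Set.range φ := hd hv'
        refine ⟨hc, hb2.trans (SimpleGraph.Adj.reachable ?_)⟩
        rw [SimpleGraph.deleteEdges_adj] at h2 ⊢
        refine ⟨h2.1, fun h3 => h2.2 ?_⟩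
        rw [Set.mem_singleton_iff] at h3 ⊢
        exact (hs ⟨b, hb⟩ ⟨c, hc⟩).2 h3
    obtain ⟨_, h2⟩ := key w.1 h
    exact h2

theorem mult_glue (hBR : S_BR) [Finite V] (hT : T.IsTree) (h : IsCopy t r T u φ) :
    mult t r T u = mult t r (T.comap (Subtype.val : Wt φ → V)) ⟨u, copy_notMem hBR hT h⟩ + 1 := by
  classical
  set T₁ := T.comap (Subtype.val : Wt φ → V) with hT₁
  set u₁ : Wt φ := ⟨u, copy_notMem hBR hT h⟩ with hu₁
  have hdis : ∀ x', T.Adj u x' → x' ≠ φ r → Br T u x' ⊆ (Set.range φ)ᶜ := by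
    intro x' hx' hne w hw hw'
    rw [h.2.2.1] at hw'
    exact Set.disjoint_left.1 ((hBR V T hT u _ h.2.1).2.2.2.2.2.2 x' hx' hne) hw' hw
  have hself : ∀ (T : SimpleGraph V) (u x : V), x ∈ Br T u x := fun T u x =>
    SimpleGraph.Reachable.refl _
  have key : ∀ x' : Wt φ, (∃ φ' : S → V, IsCopy t r T u φ' ∧ φ' r = x'.1) ↔
      ∃ φ₁ : S → Wt φ, IsCopy t r T₁ u₁ φ₁ ∧ φ₁ r = x' := by
    intro x'
    have hxr : x'.1 ≠ φ r := fun h1 => x'.2 ⟨r, h1.symm⟩
    constructor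
    · rintro ⟨φ', hc, hx⟩
      have hadj : T.Adj u x'.1 := by rw [← hx]; exact hc.2.1
      have hsub := hdis x'.1 hadj hxr
      have hran : Set.range φ' = Br T u x'.1 := by rw [hc.2.2.1, hx]
      have hmem : ∀ i, φ' i ∉ Set.range φ := fun i => by
        apply hsub
        rw [← hran]
        exact ⟨i, rfl⟩
      refine ⟨fun i => ⟨φ' i, hmem i⟩, ⟨?_, ?_, ?_, ?_⟩, Subtype.ext hx⟩
      · intro a b hab
        exact hc.1 (congrArg Subtype.val hab)
      · exact hc.2.1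
      · have e : (⟨φ' r, hmem r⟩ : Wt φ) = x' := Subtype.ext hx
        change _ = Br T₁ u₁ (⟨φ' r, hmem r⟩ : Wt φ)
        rw [e]
        ext w
        rw [Br_comap T φ u₁ x' hsub w]
        change _ ↔ w.1 ∈ Br T u x'.1
        rw [← hran]
        constructor
        · rintro ⟨i, rfl⟩
          exact ⟨i, rfl⟩
        · rintro ⟨i, hi⟩
          exact ⟨i, Subtype.ext hi⟩
      · intro a b
        exact hc.2.2.2 a b
    · rintro ⟨φ₁, hc, rfl⟩
      have hadj : T.Adj u (φ₁ r).1 := hc.2.1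
      have hsub := hdis (φ₁ r).1 hadj hxr
      refine ⟨fun i => (φ₁ i).1, ⟨?_, hadj, ?_, ?_⟩, rfl⟩
      · intro a b hab
        exact hc.1 (Subtype.ext hab)
      · ext w
        constructor
        · rintro ⟨i, rfl⟩
          have : φ₁ i ∈ Br T₁ u₁ (φ₁ r) := by rw [← hc.2.2.1]; exact ⟨i, rfl⟩
          exact (Br_comap T φ u₁ (φ₁ r) hsub (φ₁ i)).1 this
        · intro hw
          have hwn := hsub hw
          have := (Br_comap T φ u₁ (φ₁ r) hsub ⟨w, hwn⟩).2 hw
          rw [← hT₁, ← hc.2.2.1] at this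
          obtain ⟨i, hi⟩ := this
          exact ⟨i, congrArg Subtype.val hi⟩
      · intro a b
        exact hc.2.2.2 a b
  unfold mult
  have hset : {x : V | ∃ φ' : S → V, IsCopy t r T u φ' ∧ φ' r = x} =
      insert (φ r) (Subtype.val '' {x : Wt φ | ∃ φ₁ : S → Wt φ, IsCopy t r T₁ u₁ φ₁ ∧
        φ₁ r = x}) := by
    ext x
    rw [Set.mem_insert_iff, Set.mem_image]
    constructor
    · rintro ⟨φ', hc, rfl⟩
      by_cases hx : φ' r ∈ Set.range φ
      · left
        exact (copy_edge hBR hT h (φ' r) u hc.2.1.symm hx (copy_notMem hBR hT h)).1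
      · right
        exact ⟨⟨φ' r, hx⟩, (key ⟨φ' r, hx⟩).1 ⟨φ', hc, rfl⟩, rfl⟩
    · rintro (rfl | ⟨x', hx', rfl⟩)
      · exact ⟨φ, h, rfl⟩
      · exact (key x').2 hx'
  have h1 : Nat.card {x : V // ∃ φ' : S → V, IsCopy t r T u φ' ∧ φ' r = x} =
      ({x : V | ∃ φ' : S → V, IsCopy t r T u φ' ∧ φ' r = x}).ncard := rfl
  have h2 : Nat.card {x : Wt φ // ∃ φ₁ : S → Wt φ, IsCopy t r T₁ u₁ φ₁ ∧ φ₁ r = x} =
      ({x : Wt φ | ∃ φ₁ : S → Wt φ, IsCopy t r T₁ u₁ φ₁ ∧ φ₁ r = x}).ncard := rfl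
  rw [h1, h2, hset, Set.ncard_insert_of_notMem, Set.ncard_image_of_injective _
    Subtype.val_injective]
  rintro ⟨x', _, hx'⟩
  exact x'.2 ⟨r, hx'.symm⟩

theorem comap_tree (hBR : S_BR) (hT : T.IsTree) (h : IsCopy t r T u φ) :
    (T.comap (Subtype.val : Wt φ → V)).IsTree := by
  have h1 := (hBR V T hT u _ h.2.1).2.2.2.1
  have hmem : ∀ v, v ∉ Set.range φ ↔ v ∈ (Br T u (φ r))ᶜ := by
    intro v
    rw [h.2.2.1]
    rfl
  have iso : (T.comap (Subtype.val : Wt φ → V)) ≃g T.induce (Br T u (φ r))ᶜ :=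
    ⟨Equiv.subtypeEquivRight hmem, fun {a b} => by rfl⟩
  exact iso.isTree_iff.2 h1

theorem tree_determined (hBR : S_BR) {T' : SimpleGraph V} (hT : T.IsTree) (h : IsCopy t r T u φ)
    (hT' : T'.IsTree) (h' : IsCopy t r T' u φ)
    (he : T.comap (Subtype.val : Wt φ → V) = T'.comap (Subtype.val : Wt φ → V)) : T = T' := by
  have hone : ∀ (T T' : SimpleGraph V), T.IsTree → IsCopy t r T u φ → IsCopy t r T' u φ →
      T.comap (Subtype.val : Wt φ → V) = T'.comap (Subtype.val : Wt φ → V) →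
      ∀ a b, T.Adj a b → T'.Adj a b := by
    intro T T' hT h h' he a b hab
    by_cases ha : a ∈ Set.range φ
    · by_cases hb : b ∈ Set.range φ
      · obtain ⟨i, rfl⟩ := ha
        obtain ⟨j, rfl⟩ := hb
        exact (h'.2.2.2 i j).2 ((h.2.2.2 i j).1 hab)
      · obtain ⟨rfl, rfl⟩ := copy_edge hBR hT h a b hab ha hb
        exact h'.2.1.symm
    · by_cases hb : b ∈ Set.range φ
      · obtain ⟨rfl, rfl⟩ := copy_edge hBR hT h b a hab.symm hb ha
        exact h'.2.1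
      · have h1 : (T.comap (Subtype.val : Wt φ → V)).Adj ⟨a, ha⟩ ⟨b, hb⟩ := hab
        rw [he] at h1
        exact h1
  ext a b
  exact ⟨hone T T' hT h h' he a b, hone T' T hT' h' h he.symm a b⟩

end mult

theorem glue (hBR : S_BR) : S_GLUE := by
  intro S V _ _ t r k φ ht hφ
  classical
  unfold Z
  refine Nat.card_congr (Equiv.ofBijective
    (fun p : {p : SimpleGraph V × V // p.1.IsTree ∧ IsCopy t r p.1 p.2 φ ∧
      mult t r p.1 p.2 = k + 1} =>
      (⟨(p.1.1.comap (Subtype.val : Wt φ → V), ⟨p.1.2, copy_notMem hBR p.2.1 p.2.2.1⟩),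
        comap_tree hBR p.2.1 p.2.2.1, by
          have h1 := mult_glue hBR p.2.1 p.2.2.1
          have h2 := p.2.2.2
          change mult t r (p.1.1.comap (Subtype.val : Wt φ → V))
            ⟨p.1.2, copy_notMem hBR p.2.1 p.2.2.1⟩ = k
          omega⟩ :
        {p : SimpleGraph (Wt φ) × Wt φ // p.1.IsTree ∧ mult t r p.1 p.2 = k})) ⟨?_, ?_⟩)
  · rintro ⟨⟨T, u⟩, hT, hc, hm⟩ ⟨⟨T', u'⟩, hT', hc', hm'⟩ h
    have h1 := congrArg Subtype.val h
    have hu : u = u' := congrArg (fun p : SimpleGraph (Wt φ) × Wt φ => p.2.1) h1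
    subst hu
    have h2 : T.comap (Subtype.val : Wt φ → V) = T'.comap (Subtype.val : Wt φ → V) :=
      congrArg (fun p : SimpleGraph (Wt φ) × Wt φ => p.1) h1
    have h3 := tree_determined hBR hT hc hT' hc' h2
    subst h3
    rfl
  · rintro ⟨⟨T₁, u⟩, hT₁, hm⟩
    change T₁.IsTree at hT₁
    change mult t r T₁ u = k at hm
    have hc := glu_copy t r φ hφ T₁ u ht.connected
    have htree := glu_tree t r φ hφ T₁ u ht hT₁
    have hm2 := mult_glue hBR htree hc
    rw [glu_comap, hm] at hm2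
    refine ⟨⟨(glu t r φ hφ T₁ u, u.1), htree, hc, hm2⟩, ?_⟩
    apply Subtype.ext
    exact Prod.ext (glu_comap t r φ hφ T₁ u) rfl

end Pool.Agent.Q209.FV
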