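import Pool.Agent.Q209.FV.Out

set_option autoImplicit false

/-! Trees with a halving edge are rare (project FV of helper109, MP_20afc1_co). -/

namespace Pool.Agent.Q209.FV

open Filter Topology Q109.FV

theorem stirling (s : ℕ) (hs : 1 ≤ s) :
    (s : ℝ) ^ s * Real.exp (-(s : ℝ)) / s.factorial ≤ 1 / √(2 * s) := by
  have hs0 : (0 : ℝ) < s := by exact_mod_cast hs
  have h1 := Stirling.sqrt_pi_le_stirlingSeq (n := s) (by omega)
  unfold Stirling.stirlingSeq at h1
  have h2 : (1 : ℝ) ≤ √Real.pi := by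
    rw [Real.one_le_sqrt]
    linarith [Real.pi_gt_three]
  have h3 : (1 : ℝ) ≤ (s.factorial : ℝ) / (√(2 * s) * (s / Real.exp 1) ^ s) := h2.trans h1
  have h4 : (0 : ℝ) < √(2 * (s : ℝ)) := by positivity
  rw [le_div_iff₀ (by positivity), one_mul, div_pow, ← Real.exp_nat_mul, mul_one] at h3
  rw [div_le_div_iff₀ (by positivity) h4, one_mul, Real.exp_neg, mul_comm]
  have h5 : (s : ℝ) ^ s * (Real.exp s)⁻¹ = (s : ℝ) ^ s / Real.exp s := by
    rw [div_eq_mul_inv]
  rw [h5]
  exact h3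

open Classical in
theorem half_bound (hR : S_REC) (hS : S_SUM) (hQ : S_Q) (hA : S_AN) (n : ℕ) (hn : 1 ≤ n) :
    (((trees n).filter fun T => ∃ a b, T.Adj a b ∧ 2 * Nat.card (Br T a b) = n).card : ℝ) /
      (n : ℝ) ^ (n - 2) ≤ 8 / √n := by
  have hn0 : (0 : ℝ) < n := by exact_mod_cast hn
  by_cases hex : ∃ s, n = 2 * s
  · obtain ⟨s, rfl⟩ := hex
    have hs : 1 ≤ s := by omega
    have hs0 : (0 : ℝ) < s := by exact_mod_cast hs
    have h1 : (((trees (2 * s)).filter fun T => ∃ a b, T.Adj a b ∧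
        2 * Nat.card (Br T a b) = 2 * s).card : ℝ) ≤
        ∑ T ∈ trees (2 * s), (Nat.card {p : Fin (2 * s) × Fin (2 * s) // T.Adj p.1 p.2 ∧
          Nat.card (Br T p.1 p.2) = s} : ℝ) := by
      rw [Finset.card_filter]
      push_cast
      refine Finset.sum_le_sum fun T _ => ?_
      split_ifs with h
      · obtain ⟨a, b, hab, hc⟩ := h
        have : Nonempty {p : Fin (2 * s) × Fin (2 * s) // T.Adj p.1 p.2 ∧
          Nat.card (Br T p.1 p.2) = s} := ⟨⟨(a, b), hab, by
            change Nat.card (Br T a b) = s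
            omega⟩⟩
        exact_mod_cast Nat.card_pos (α := {p : Fin (2 * s) × Fin (2 * s) // T.Adj p.1 p.2 ∧
          Nat.card (Br T p.1 p.2) = s})
      · exact Nat.cast_nonneg _
    have h2 : ∑ T ∈ trees (2 * s), (Nat.card {p : Fin (2 * s) × Fin (2 * s) // T.Adj p.1 p.2 ∧
          Nat.card (Br T p.1 p.2) = s} : ℝ) = (1 / (s.factorial : ℝ)) * ((s : ℝ) ^ (s - 1) *
        (((2 * s).descFactorial s : ℝ) * ((2 * s - s : ℕ) : ℝ) ^ (2 * s - s - 1))) := by
      rw [(hS (2 * s)).2 s]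
      congr 1
      have h3 : ∀ t ∈ trees s, ∀ r : Fin s, ∑ k ∈ Finset.Icc 1 (2 * s),
          (aut t r : ℝ) * k * (Z (Fin (2 * s)) t r k : ℝ) =
          ((2 * s).descFactorial s : ℝ) * ((2 * s - s : ℕ) : ℝ) ^ (2 * s - s - 1) :=
        fun t ht r => (hA (aut t r) s _ (hypZ hR t (Finset.mem_filter.1 ht).2 r)).1 (2 * s)
          (by omega)
      rw [Finset.sum_congr rfl fun t ht => Finset.sum_congr rfl fun r _ => h3 t ht r,
        Finset.sum_const, Finset.sum_const, Finset.card_univ, Fintype.card_fin, nsmul_eq_mul,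
        nsmul_eq_mul, ← mul_assoc]
      congr 1
      exact_mod_cast card_trees s hs
    have h3 := (hQ.1 (2 * s) s (by omega)).1
    have h4 : ((2 * s : ℕ) : ℝ) / ((2 * s - s : ℕ) : ℝ) = 2 := by
      rw [show 2 * s - s = s by omega]
      push_cast
      field_simp
    rw [h4] at h3
    have h5 := stirling s hs
    have hpow : ((2 * s : ℕ) : ℝ) ^ (2 * s - 1) =
        ((2 * s : ℕ) : ℝ) ^ (2 * s - 2) * ((2 * s : ℕ) : ℝ) := by
      rw [← pow_succ]
      congr 1
      omega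
    have hps : (s : ℝ) ^ s = (s : ℝ) ^ (s - 1) * s := by
      rw [← pow_succ]
      congr 1
      omega
    have hfac : (0 : ℝ) < s.factorial := by exact_mod_cast Nat.factorial_pos s
    set q : ℝ := ((2 * s).descFactorial s : ℝ) * ((2 * s - s : ℕ) : ℝ) ^ (2 * s - s - 1) /
      ((2 * s : ℕ) : ℝ) ^ (2 * s - 1) with hq
    have hn2 : (0 : ℝ) < ((2 * s : ℕ) : ℝ) ^ (2 * s - 2) := by positivity
    calc (((trees (2 * s)).filter fun T => ∃ a b, T.Adj a b ∧
        2 * Nat.card (Br T a b) = 2 * s).card : ℝ) / ((2 * s : ℕ) : ℝ) ^ (2 * s - 2)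
        ≤ ((1 / (s.factorial : ℝ)) * ((s : ℝ) ^ (s - 1) *
        (((2 * s).descFactorial s : ℝ) * ((2 * s - s : ℕ) : ℝ) ^ (2 * s - s - 1)))) /
          ((2 * s : ℕ) : ℝ) ^ (2 * s - 2) := by
          rw [← h2]
          exact div_le_div_of_nonneg_right h1 hn2.le
      _ = 2 * ((s : ℝ) ^ s / s.factorial) * q := by
          rw [hq, hpow, hps]
          push_cast
          field_simp
      _ ≤ 2 * ((s : ℝ) ^ s / s.factorial) * (2 ^ 2 * Real.exp (-(s : ℝ))) :=
          mul_le_mul_of_nonneg_left h3 (by positivity)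
      _ = 8 * ((s : ℝ) ^ s * Real.exp (-(s : ℝ)) / s.factorial) := by ring
      _ ≤ 8 * (1 / √(2 * s)) := mul_le_mul_of_nonneg_left h5 (by norm_num)
      _ = 8 / √((2 * s : ℕ) : ℝ) := by
          push_cast
          ring
  · have h1 : (trees n).filter (fun T => ∃ a b, T.Adj a b ∧ 2 * Nat.card (Br T a b) = n) = ∅ := by
      rw [Finset.filter_eq_empty_iff]
      rintro T _ ⟨a, b, _, h⟩
      exact hex ⟨_, h.symm⟩
    rw [h1, Finset.card_empty, Nat.cast_zero, zero_div]
    positivity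

theorem halflim (hR : S_REC) (hS : S_SUM) (hQ : S_Q) (hA : S_AN) : S_HALFLIM := by
  classical
  unfold S_HALFLIM
  have h1 : Tendsto (fun n : ℕ => 8 / √(n : ℝ)) atTop (𝓝 0) :=
    Tendsto.const_div_atTop (Real.tendsto_sqrt_atTop.comp tendsto_natCast_atTop_atTop) 8
  refine squeeze_zero' (Eventually.of_forall fun n => by positivity) ?_ h1
  filter_upwards [eventually_ge_atTop 1] with n hn
  have := half_bound hR hS hQ hA n hn
  convert this

end Pool.Agent.Q209.FV
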