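import Pool.Agent.Q109.FV.Stm

set_option autoImplicit false

/-! Labelling a branch (project FV of helper109, MP_20afc1_co). -/

namespace Pool.Agent.Q209.FV

open Q109.FV

theorem mem_Br_self {V : Type} (T : SimpleGraph V) (u x : V) : x ∈ Br T u x :=
  SimpleGraph.Reachable.refl _

theorem lab (hBR : S_BR) : S_LAB := by
  intro V _ T hT u x s hux hs
  classical
  have : Fintype (Br T u x) := Fintype.ofFinite _
  have hcard : Fintype.card (Br T u x) = s := by
    rw [← Nat.card_eq_fintype_card]
    exact hs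
  obtain ⟨e₀⟩ : Nonempty (Fin s ≃ Br T u x) := ⟨(Fintype.equivFinOfCardEq hcard).symm⟩
  have hB : (T.induce (Br T u x)).IsTree := (hBR V T hT u x hux).2.2.1
  -- the data of a bijection
  have hcopy : ∀ e : Fin s ≃ Br T u x,
      (T.comap (fun i => (e i).1)).IsTree ∧
      IsCopy (T.comap (fun i => (e i).1)) (e.symm ⟨x, mem_Br_self T u x⟩) T u
        (fun i => (e i).1) ∧ (e (e.symm ⟨x, mem_Br_self T u x⟩)).1 = x := by
    intro e
    have hx : (e (e.symm ⟨x, mem_Br_self T u x⟩)).1 = x := by
      rw [Equiv.apply_symm_apply]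
    refine ⟨?_, ⟨?_, ?_, ?_, ?_⟩, hx⟩
    · have iso : (T.comap (fun i => (e i).1)) ≃g T.induce (Br T u x) :=
        ⟨e, fun {a b} => by rfl⟩
      exact iso.isTree_iff.2 hB
    · intro a b h
      exact e.injective (Subtype.ext h)
    · change T.Adj u (e (e.symm ⟨x, mem_Br_self T u x⟩)).1
      rw [hx]
      exact hux
    · change _ = Br T u (e (e.symm ⟨x, mem_Br_self T u x⟩)).1
      rw [hx]
      ext w
      constructor
      · rintro ⟨i, rfl⟩
        exact (e i).2
      · intro hw
        exact ⟨e.symm ⟨w, hw⟩, by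
          change (e (e.symm ⟨w, hw⟩)).1 = w
          rw [Equiv.apply_symm_apply]⟩
    · intro a b
      rfl
  have hmain : Nat.card (Fin s ≃ Br T u x) = Nat.card
      {q : (SimpleGraph (Fin s) × Fin s) × (Fin s → V) // q.1.1.IsTree ∧
        IsCopy q.1.1 q.1.2 T u q.2 ∧ q.2 q.1.2 = x} := by
    refine Nat.card_congr (Equiv.ofBijective
      (fun e : Fin s ≃ Br T u x =>
        (⟨((T.comap (fun i => (e i).1), e.symm ⟨x, mem_Br_self T u x⟩), fun i => (e i).1),
          hcopy e⟩ : {q : (SimpleGraph (Fin s) × Fin s) × (Fin s → V) // q.1.1.IsTree ∧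
        IsCopy q.1.1 q.1.2 T u q.2 ∧ q.2 q.1.2 = x})) ⟨?_, ?_⟩)
    · intro e e' h
      have h1 : (fun i => (e i).1) = fun i => (e' i).1 :=
        congrArg (fun q => q.1.2) h
      ext i
      exact congrFun h1 i
    · rintro ⟨⟨⟨t, r⟩, φ⟩, ht, hφ, hr⟩
      change φ r = x at hr
      have hrange : Set.range φ = Br T u x := by
        have := hφ.2.2.1
        change Set.range φ = Br T u (φ r) at this
        rw [this, hr]
      let e : Fin s ≃ Br T u x :=
        (Equiv.ofInjective φ hφ.1).trans (Equiv.setCongr hrange)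
      have he : ∀ i, (e i).1 = φ i := fun i => rfl
      refine ⟨e, ?_⟩
      apply Subtype.ext
      change ((T.comap (fun i => (e i).1), e.symm ⟨x, mem_Br_self T u x⟩), fun i => (e i).1) =
        ((t, r), φ)
      have h1 : T.comap (fun i => (e i).1) = t := by
        ext a b
        exact hφ.2.2.2 a b
      have h2 : e.symm ⟨x, mem_Br_self T u x⟩ = r := by
        rw [Equiv.symm_apply_eq]
        apply Subtype.ext
        change x = (e r).1
        rw [he, hr]
      rw [h1, h2]
      rfl
  rw [← hmain, Nat.card_eq_fintype_card, Fintype.card_equiv e₀, Fintype.card_fin]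

end Pool.Agent.Q209.FV
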