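import Pool.Agent.Q109.FV.Stm
import Pool.Agent.TH272.WH.Main

set_option autoImplicit false

/-! Outer dominated convergence (project FV of helper109, MP_20afc1_co). -/

namespace Pool.Agent.Q209.FV

open Filter Topology Q109.FV

theorem card_trees (s : ℕ) (hs : 1 ≤ s) : (trees s).card * s = s ^ (s - 1) := by
  classical
  have h1 : (trees s).card = s ^ (s - 2) := by
    rw [← Pool.Agent.TH272.WH.card_trees_eq hs, Set.ncard_eq_toFinset_card']
    congr 1
    ext T
    simp [trees]
  rw [h1]
  rcases Nat.eq_or_lt_of_le hs with h5 | h5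
  · rw [← h5]; norm_num
  · rw [← pow_succ]
    congr 1
    omega

theorem aut_pos {s : ℕ} (t : SimpleGraph (Fin s)) (r : Fin s) : 1 ≤ aut t r := by
  unfold aut
  have : Nonempty {σ : t ≃g t // σ r = r} := ⟨⟨SimpleGraph.Iso.refl, rfl⟩⟩
  have : Finite (t ≃g t) := by
    exact Finite.of_injective (fun σ : t ≃g t => (σ : Fin s → Fin s)) (fun a b h => by
      ext x
      exact congrArg Fin.val (congrFun h x))
  exact Nat.card_pos

theorem rfix_le {s : ℕ} (t : SimpleGraph (Fin s)) (r : Fin s) : rfix t r ≤ s := by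
  have : rfix t r ≤ Nat.card (Fin s) :=
    Nat.card_le_card_of_injective _ Subtype.val_injective
  rwa [Nat.card_eq_fintype_card, Fintype.card_fin] at this

theorem hypZ (hR : S_REC) {s : ℕ} (t : SimpleGraph (Fin s)) (ht : t.IsTree) (r : Fin s) :
    HypZ (aut t r : ℝ) s (fun n k => (Z (Fin n) t r k : ℝ)) := by
  obtain ⟨h1, h2, h3, h4⟩ := hR
  refine ⟨?_, ?_, fun n k => Nat.cast_nonneg _, fun k => ?_, fun n k hk => ?_, fun n hn => ?_,
    fun n k => ?_⟩
  · exact_mod_cast aut_pos t r
  · have := r.2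
    omega
  · change ((Z (Fin 0) t r k : ℕ) : ℝ) = 0
    rw [h2 (Fin s) t r k, Nat.cast_zero]
  · change ((Z (Fin n) t r k : ℕ) : ℝ) = 0
    rw [h3 (Fin s) t r n k hk, Nat.cast_zero]
  · have := h4 (Fin s) t r n hn
    change ∑ k ∈ Finset.range (n + 1), ((Z (Fin n) t r k : ℕ) : ℝ) = _
    exact_mod_cast this
  · have := h1 (Fin s) (Fin n) t r k ht
    rw [Fintype.card_fin, Fintype.card_fin] at this
    change (aut t r : ℝ) * ((k : ℝ) + 1) * ((Z (Fin n) t r (k + 1) : ℕ) : ℝ) =
      (n.descFactorial s : ℝ) * ((Z (Fin (n - s)) t r k : ℕ) : ℝ)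
    exact_mod_cast this

/-- a weighted sum over rooted trees -/
theorem sum_le (s : ℕ) (c : ℝ) (hc : 0 ≤ c) (f : SimpleGraph (Fin s) → Fin s → ℝ)
    (hf : ∀ t ∈ trees s, ∀ r, f t r ≤ c) :
    (1 / (s.factorial : ℝ)) * ∑ t ∈ trees s, ∑ r : Fin s, (rfix t r : ℝ) * f t r ≤
      Real.exp s * c := by
  rcases Nat.eq_zero_or_pos s with rfl | hs
  · simp only [Finset.univ_eq_empty, Finset.sum_empty, Finset.sum_const_zero, mul_zero]
    positivity
  · have h1 : ∑ t ∈ trees s, ∑ r : Fin s, (rfix t r : ℝ) * f t r ≤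
        ∑ t ∈ trees s, ∑ _r : Fin s, (s : ℝ) * c := by
      refine Finset.sum_le_sum fun t ht => Finset.sum_le_sum fun r _ => ?_
      calc (rfix t r : ℝ) * f t r ≤ (rfix t r : ℝ) * c :=
            mul_le_mul_of_nonneg_left (hf t ht r) (Nat.cast_nonneg _)
        _ ≤ (s : ℝ) * c := mul_le_mul_of_nonneg_right (by exact_mod_cast rfix_le t r) hc
    have h2 : ∑ t ∈ trees s, ∑ _r : Fin s, (s : ℝ) * c = (s : ℝ) ^ s * c := by
      rw [Finset.sum_const, Finset.sum_const, Finset.card_univ, Fintype.card_fin, nsmul_eq_mul,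
        nsmul_eq_mul]
      have h3 : ((trees s).card : ℝ) * s = (s : ℝ) ^ (s - 1) := by
        exact_mod_cast card_trees s hs
      have h4 : (s : ℝ) ^ s = (s : ℝ) ^ (s - 1) * s := by
        rw [← pow_succ]
        congr 1
        omega
      rw [h4, ← h3]
      ring
    rw [h2] at h1
    have h3 : (s : ℝ) ^ s / s.factorial ≤ Real.exp s :=
      Real.pow_div_factorial_le_exp s (Nat.cast_nonneg s) s
    calc (1 / (s.factorial : ℝ)) * ∑ t ∈ trees s, ∑ r : Fin s, (rfix t r : ℝ) * f t r
        ≤ (1 / (s.factorial : ℝ)) * ((s : ℝ) ^ s * c) :=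
          mul_le_mul_of_nonneg_left h1 (by positivity)
      _ = (s : ℝ) ^ s / s.factorial * c := by ring
      _ ≤ Real.exp s * c := mul_le_mul_of_nonneg_right h3 hc

theorem summable_bd : Summable fun s : ℕ => (2 * (s : ℝ) + 1) ^ 2 * Real.exp (-(s : ℝ)) := by
  have hr : ‖Real.exp (-1)‖ < 1 := by
    rw [Real.norm_of_nonneg (Real.exp_pos _).le]
    exact Real.exp_lt_one_iff.2 (by norm_num)
  have h : ∀ k : ℕ, Summable fun s : ℕ => (s : ℝ) ^ k * Real.exp (-1) ^ s := fun k =>
    summable_pow_mul_geometric_of_norm_lt_one k hr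
  have h2 := (((h 2).mul_left 4).add ((h 1).mul_left 4)).add (h 0)
  refine h2.congr fun s => ?_
  rw [← Real.exp_nat_mul]
  have : (s : ℝ) * -1 = -(s : ℝ) := by ring
  rw [this]
  ring

theorem term_nonneg (s : ℕ) : 0 ≤ term s := by
  unfold term
  refine mul_nonneg (by positivity) (Finset.sum_nonneg fun t _ => Finset.sum_nonneg fun r _ =>
    mul_nonneg (Nat.cast_nonneg _) ?_)
  rw [sub_nonneg]
  apply Real.exp_le_one_iff.2
  have : 0 ≤ Real.exp (-(s : ℝ)) / aut t r := by positivity
  linarith

theorem out (hR : S_REC) (hS : S_SUM) (hA : S_AN) : S_OUT := by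
  classical
  constructor
  · refine Summable.of_nonneg_of_le term_nonneg (fun s => ?_) summable_bd
    have h1 : term s = (1 / (s.factorial : ℝ)) * ∑ t ∈ trees s, ∑ r : Fin s,
        (rfix t r : ℝ) * (Real.exp (-(s : ℝ)) *
          (1 - Real.exp (-(Real.exp (-(s : ℝ)) / aut t r)))) := by
      unfold term
      have : Real.exp (-(s : ℝ)) / (s.factorial : ℝ) =
          (1 / (s.factorial : ℝ)) * Real.exp (-(s : ℝ)) := by ring
      rw [this, mul_assoc, Finset.mul_sum]
      congr 1
      refine Finset.sum_congr rfl fun t _ => ?_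
      rw [Finset.mul_sum]
      refine Finset.sum_congr rfl fun r _ => ?_
      ring
    rw [h1]
    have h2 := sum_le s (Real.exp (-(s : ℝ)) * Real.exp (-(s : ℝ))) (by positivity)
      (fun t r => Real.exp (-(s : ℝ)) * (1 - Real.exp (-(Real.exp (-(s : ℝ)) / aut t r))))
      (fun t _ r => by
        refine mul_le_mul_of_nonneg_left ?_ (Real.exp_pos _).le
        have h3 := Real.add_one_le_exp (-(Real.exp (-(s : ℝ)) / aut t r))
        have h4 : Real.exp (-(s : ℝ)) / aut t r ≤ Real.exp (-(s : ℝ)) := by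
          apply div_le_self (Real.exp_pos _).le
          exact_mod_cast aut_pos t r
        linarith)
    refine h2.trans ?_
    rw [← mul_assoc, ← Real.exp_add, add_neg_cancel, Real.exp_zero, one_mul]
    have h5 : (1 : ℝ) ≤ (2 * (s : ℝ) + 1) ^ 2 := by
      have : (0 : ℝ) ≤ s := Nat.cast_nonneg s
      nlinarith
    nlinarith [Real.exp_pos (-(s : ℝ))]
  · set G : ∀ (n s : ℕ), SimpleGraph (Fin s) → Fin s → ℝ := fun n s t r =>
      (∑ k ∈ Finset.Icc 2 n, (aut t r : ℝ) * k * (Z (Fin n) t r k : ℝ)) / (n : ℝ) ^ (n - 1)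
      with hG
    set F : ℕ → ℕ → ℝ := fun n s => if s < n + 1 then (1 / (s.factorial : ℝ)) *
      ∑ t ∈ trees s, ∑ r : Fin s, (rfix t r : ℝ) * G n s t r else 0 with hF
    have hw : ∀ n : ℕ, (∑ T ∈ trees n, (Nat.card {v : Fin n // Wit T v} : ℝ)) /
        (n : ℝ) ^ (n - 1) = ∑' s, F n s := by
      intro n
      rw [(hS n).1]
      have h1 : ∑' s, F n s = ∑ s ∈ Finset.range (n + 1), F n s := by
        apply tsum_eq_sum
        intro s hs
        rw [Finset.mem_range] at hs
        simp only [hF]
        rw [if_neg hs]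
      rw [h1, Finset.sum_div]
      refine Finset.sum_congr rfl fun s hs => ?_
      simp only [hF]
      rw [if_pos (Finset.mem_range.1 hs), mul_div_assoc, Finset.sum_div]
      congr 1
      refine Finset.sum_congr rfl fun t _ => ?_
      rw [Finset.sum_div]
      refine Finset.sum_congr rfl fun r _ => ?_
      simp only [hG]
      rw [mul_div_assoc]
    simp only [hw]
    refine tendsto_tsum_of_dominated_convergence
      (bound := fun s : ℕ => (2 * (s : ℝ) + 1) ^ 2 * Real.exp (-(s : ℝ))) summable_bd ?_ ?_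
    · intro s
      have h1 : Tendsto (fun n => (1 / (s.factorial : ℝ)) *
          ∑ t ∈ trees s, ∑ r : Fin s, (rfix t r : ℝ) * G n s t r) atTop (𝓝 (term s)) := by
        have h2 : term s = (1 / (s.factorial : ℝ)) * ∑ t ∈ trees s, ∑ r : Fin s,
            (rfix t r : ℝ) * (Real.exp (-(s : ℝ)) *
              (1 - Real.exp (-(Real.exp (-(s : ℝ)) / aut t r)))) := by
          unfold term
          have : Real.exp (-(s : ℝ)) / (s.factorial : ℝ) =
              (1 / (s.factorial : ℝ)) * Real.exp (-(s : ℝ)) := by ring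
          rw [this, mul_assoc, Finset.mul_sum]
          congr 1
          refine Finset.sum_congr rfl fun t _ => ?_
          rw [Finset.mul_sum]
          refine Finset.sum_congr rfl fun r _ => ?_
          ring
        rw [h2]
        refine Tendsto.const_mul _ (tendsto_finsetSum _ fun t ht => tendsto_finsetSum _
          fun r _ => Tendsto.const_mul _ ?_)
        exact (hA (aut t r) s _ (hypZ hR t (Finset.mem_filter.1 ht).2 r)).2.2
      refine h1.congr' ?_
      filter_upwards [eventually_ge_atTop s] with n hn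
      simp only [hF]
      rw [if_pos (by omega)]
    · filter_upwards [eventually_ge_atTop 1] with n hn s
      have hn0 : (0 : ℝ) < n := by exact_mod_cast hn
      simp only [hF]
      by_cases hs : s < n + 1
      · rw [if_pos hs, Real.norm_of_nonneg]
        · have h2 := sum_le s ((2 * (s : ℝ) + 1) ^ 2 * Real.exp (-(2 * (s : ℝ))))
            (by positivity) (G n s) (fun t ht r => by
              simp only [hG]
              rw [div_le_iff₀ (by positivity)]
              exact (hA (aut t r) s _ (hypZ hR t (Finset.mem_filter.1 ht).2 r)).2.1 n hn)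
          refine h2.trans (le_of_eq ?_)
          rw [mul_left_comm, ← Real.exp_add]
          congr 2
          ring
        · refine mul_nonneg (by positivity) (Finset.sum_nonneg fun t _ =>
            Finset.sum_nonneg fun r _ => mul_nonneg (Nat.cast_nonneg _) ?_)
          simp only [hG]
          exact div_nonneg (Finset.sum_nonneg fun k _ => by positivity) (by positivity)
      · rw [if_neg hs, norm_zero]
        positivity

end Pool.Agent.Q209.FV
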