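import Pool.Agent.Q109.FV.Stm

set_option autoImplicit false

/-! Falling factorials (project FV of helper109, MP_20afc1_co). -/

namespace Pool.Agent.Q209.FV

open Filter Topology Q109.FV

theorem exp_pow_le (N : ℕ) (hN : 1 ≤ N) :
    Real.exp 1 * (N : ℝ) ^ (N + 1) ≤ ((N : ℝ) + 1) ^ (N + 1) := by
  have hN0 : (0 : ℝ) < N := by exact_mod_cast hN
  have h1 : 1 - (((N : ℝ) + 1) / N)⁻¹ ≤ Real.log (((N : ℝ) + 1) / N) :=
    Real.one_sub_inv_le_log_of_pos (by positivity)
  have h2 : 1 - (((N : ℝ) + 1) / N)⁻¹ = 1 / ((N : ℝ) + 1) := by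
    field_simp
    ring
  rw [h2, div_le_iff₀ (by positivity)] at h1
  have h3 : Real.exp 1 ≤ (((N : ℝ) + 1) / N) ^ (N + 1) := by
    have h4 : (((N : ℝ) + 1) / N) ^ (N + 1) =
        Real.exp (((N + 1 : ℕ) : ℝ) * Real.log (((N : ℝ) + 1) / N)) := by
      rw [Real.exp_nat_mul, Real.exp_log (by positivity)]
    rw [h4]
    apply Real.exp_le_exp.2
    push_cast
    linarith
  rw [div_pow, le_div_iff₀ (by positivity)] at h3
  exact h3

theorem desc_bound (m : ℕ) (hm : 1 ≤ m) (k : ℕ) :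
    ((m + k).descFactorial k : ℝ) * Real.exp k * (m : ℝ) ^ (m + 1) ≤
      ((m + k : ℕ) : ℝ) ^ (m + k + 1) := by
  induction k with
  | zero => simp
  | succ k ih =>
    have h1 := exp_pow_le (m + k) (by omega)
    have e1 : (m + (k + 1)).descFactorial (k + 1) = (m + k + 1) * (m + k).descFactorial k := by
      rw [← add_assoc, Nat.succ_descFactorial_succ]
    rw [e1]
    have e2 : Real.exp ((k + 1 : ℕ) : ℝ) = Real.exp 1 * Real.exp k := by
      rw [← Real.exp_add]
      congr 1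
      push_cast
      ring
    rw [e2]
    have e3 : (((m + (k + 1) : ℕ) : ℝ)) ^ (m + (k + 1) + 1) =
        ((m + k : ℕ) + 1) * ((((m + k : ℕ) : ℝ) + 1) ^ (m + k + 1)) := by
      push_cast
      rw [show m + (k + 1) + 1 = m + k + 1 + 1 by ring, pow_succ]
      ring
    rw [e3]
    calc (((m + k + 1) * (m + k).descFactorial k : ℕ) : ℝ) * (Real.exp 1 * Real.exp k) *
        (m : ℝ) ^ (m + 1) = ((m + k : ℕ) + 1) * (Real.exp 1 *
          (((m + k).descFactorial k : ℝ) * Real.exp k * (m : ℝ) ^ (m + 1))) := by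
          push_cast
          ring
      _ ≤ ((m + k : ℕ) + 1) * (Real.exp 1 * ((m + k : ℕ) : ℝ) ^ (m + k + 1)) := by
          refine mul_le_mul_of_nonneg_left ?_ (by positivity)
          exact mul_le_mul_of_nonneg_left ih (Real.exp_pos _).le
      _ ≤ _ := mul_le_mul_of_nonneg_left h1 (by positivity)

theorem q_bound (m k : ℕ) (hm : 1 ≤ m) :
    ((m + k).descFactorial k : ℝ) * (m : ℝ) ^ (m - 1) / ((m + k : ℕ) : ℝ) ^ (m + k - 1) ≤
      (((m + k : ℕ) : ℝ) / m) ^ 2 * Real.exp (-(k : ℝ)) := by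
  have hm0 : (0 : ℝ) < m := by exact_mod_cast hm
  have hn0 : (0 : ℝ) < ((m + k : ℕ) : ℝ) := by
    have : 0 < m + k := by omega
    exact_mod_cast this
  have h1 := desc_bound m hm k
  have e1 : (m : ℝ) ^ (m + 1) = (m : ℝ) ^ (m - 1) * (m : ℝ) ^ 2 := by
    rw [← pow_add]
    congr 1
    omega
  have e2 : ((m + k : ℕ) : ℝ) ^ (m + k + 1) =
      ((m + k : ℕ) : ℝ) ^ (m + k - 1) * ((m + k : ℕ) : ℝ) ^ 2 := by
    rw [← pow_add]
    congr 1
    omega
  rw [e1, e2] at h1
  rw [div_le_iff₀ (by positivity), Real.exp_neg, div_pow, ← div_eq_mul_inv, div_div,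
    div_mul_eq_mul_div, le_div_iff₀ (by positivity)]
  calc ((m + k).descFactorial k : ℝ) * (m : ℝ) ^ (m - 1) * ((m : ℝ) ^ 2 * Real.exp k)
      = ((m + k).descFactorial k : ℝ) * Real.exp k * ((m : ℝ) ^ (m - 1) * (m : ℝ) ^ 2) := by ring
    _ ≤ _ := h1
    _ = _ := by ring

theorem q : S_Q := by
  refine ⟨fun n k hk => ?_, fun k => ?_⟩
  · obtain ⟨m, rfl⟩ : ∃ m, n = m + k := ⟨n - k, by omega⟩
    have hm : 1 ≤ m := by omega
    have hm0 : (0 : ℝ) < m := by exact_mod_cast hm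
    rw [Nat.add_sub_cancel]
    have h1 := q_bound m k hm
    refine ⟨h1, h1.trans ?_⟩
    refine mul_le_mul_of_nonneg_right ?_ (Real.exp_pos _).le
    refine pow_le_pow_left₀ (by positivity) ?_ 2
    rw [div_le_iff₀ hm0]
    have h2 : m + k ≤ (k + 1) * m := by nlinarith
    exact_mod_cast h2
  · rw [← tendsto_add_atTop_iff_nat k]
    have h1 : Tendsto (fun m : ℕ => ((m + k).descFactorial k : ℝ) / ((m + k : ℕ) : ℝ) ^ k) atTop
        (𝓝 1) := by
      have h2 := (Asymptotics.isEquivalent_iff_tendsto_one (by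
        filter_upwards [eventually_gt_atTop 0] with n hn
        have : (0 : ℝ) < n := by exact_mod_cast hn
        positivity)).1 (isEquivalent_descFactorial k)
      exact (tendsto_add_atTop_iff_nat (f := fun n : ℕ =>
        (n.descFactorial k : ℝ) / (n : ℝ) ^ k) k).2 h2
    have h2 : Tendsto (fun m : ℕ => (((1 : ℝ) + (k : ℝ) / m) ^ m)⁻¹) atTop
        (𝓝 (Real.exp k)⁻¹) :=
      (Real.tendsto_one_add_div_pow_exp (k : ℝ)).inv₀ (Real.exp_pos _).ne'
    have h3 : Tendsto (fun m : ℕ => (1 : ℝ) + (k : ℝ) / m) atTop (𝓝 1) := by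
      have : Tendsto (fun m : ℕ => (k : ℝ) / m) atTop (𝓝 0) :=
        tendsto_const_div_atTop_nhds_zero_nat _
      simpa using this.const_add 1
    have h4 := (h1.mul h2).mul h3
    rw [one_mul, mul_one, ← Real.exp_neg] at h4
    refine h4.congr' ?_
    filter_upwards [eventually_ge_atTop 1] with m hm
    have hm0 : (0 : ℝ) < m := by exact_mod_cast hm
    rw [Nat.add_sub_cancel]
    have hn0 : (0 : ℝ) < (m : ℝ) + k := by positivity
    have e1 : (1 : ℝ) + (k : ℝ) / m = ((m : ℝ) + k) / m := by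
      field_simp
    have e2 : ((m + k : ℕ) : ℝ) ^ (m + k - 1) = ((m : ℝ) + k) ^ k * ((m : ℝ) + k) ^ (m - 1) := by
      push_cast
      rw [← pow_add]
      congr 1
      omega
    have e3 : ((m : ℝ) + k) ^ m = ((m : ℝ) + k) ^ (m - 1) * ((m : ℝ) + k) := by
      rw [← pow_succ]
      congr 1
      omega
    have e4 : (m : ℝ) ^ m = (m : ℝ) ^ (m - 1) * m := by
      rw [← pow_succ]
      congr 1
      omega
    rw [e1, e2, div_pow, inv_div, e3, e4]
    push_cast
    field_simp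

end Pool.Agent.Q209.FV
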