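import Pool.Agent.Q109.FV.Stm
import Pool.Agent.TH272.WH.Main

set_option autoImplicit false

/-! The double counting recurrence (project FV of helper109, MP_20afc1_co). -/

namespace Pool.Agent.Q209.FV

open Q109.FV

variable {S V W : Type} {t : SimpleGraph S} {r : S}

theorem Br_iso {T : SimpleGraph V} {T' : SimpleGraph W} (f : T ≃g T') (u x w : V) :
    f w ∈ Br T' (f u) (f x) ↔ w ∈ Br T u x := by
  let g : T.deleteEdges {s(u, x)} ≃g T'.deleteEdges {s(f u, f x)} :=
    ⟨f.toEquiv, fun {a b} => by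
      change (T'.deleteEdges {s(f u, f x)}).Adj (f a) (f b) ↔ (T.deleteEdges {s(u, x)}).Adj a b
      rw [SimpleGraph.deleteEdges_adj, SimpleGraph.deleteEdges_adj, f.map_adj_iff,
        Set.mem_singleton_iff, Set.mem_singleton_iff, Sym2.eq_iff, Sym2.eq_iff,
        f.injective.eq_iff, f.injective.eq_iff, f.injective.eq_iff, f.injective.eq_iff]⟩
  exact g.reachable_iff (u := x) (v := w)

theorem copy_iso {T : SimpleGraph V} {T' : SimpleGraph W} (f : T ≃g T') {u : V} {φ : S → V}
    (h : IsCopy t r T u φ) : IsCopy t r T' (f u) (f ∘ φ) := by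
  obtain ⟨h1, h2, h3, h4⟩ := h
  refine ⟨f.injective.comp h1, ?_, ?_, ?_⟩
  · exact f.map_adj_iff.2 h2
  · rw [Set.range_comp, h3]
    ext w
    constructor
    · rintro ⟨v, hv, rfl⟩
      exact (Br_iso f u _ v).2 hv
    · intro hw
      obtain ⟨v, rfl⟩ := f.surjective w
      exact ⟨v, (Br_iso f u _ v).1 hw, rfl⟩
  · intro a b
    change T'.Adj (f (φ a)) (f (φ b)) ↔ _
    rw [f.map_adj_iff, h4]

theorem mult_iso {T : SimpleGraph V} {T' : SimpleGraph W} (f : T ≃g T') (u : V) :
    mult t r T' (f u) = mult t r T u := by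
  unfold mult
  symm
  refine Nat.card_congr (Equiv.subtypeEquiv f.toEquiv fun x => ?_)
  constructor
  · rintro ⟨φ, h, rfl⟩
    exact ⟨f ∘ φ, copy_iso f h, rfl⟩
  · rintro ⟨φ, h, hx⟩
    refine ⟨f.symm ∘ φ, ?_, ?_⟩
    · have := copy_iso f.symm h
      rwa [f.symm_apply_apply] at this
    · change f.symm (φ r) = x
      rw [hx]
      exact f.symm_apply_apply x

theorem Z_congr (e : V ≃ W) (t : SimpleGraph S) (r : S) (k : ℕ) : Z V t r k = Z W t r k := by
  unfold Z
  refine Nat.card_congr (Equiv.subtypeEquiv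
    ((Equiv.simpleGraph e).prodCongr e) fun p => ?_)
  let f : p.1 ≃g (Equiv.simpleGraph e) p.1 :=
    ⟨e, fun {a b} => by
      change p.1.Adj (e.symm (e a)) (e.symm (e b)) ↔ _
      rw [e.symm_apply_apply, e.symm_apply_apply]⟩
  have h1 : p.1.IsTree ↔ ((Equiv.simpleGraph e) p.1).IsTree := f.isTree_iff
  have h2 : mult t r ((Equiv.simpleGraph e) p.1) (e p.2) = mult t r p.1 p.2 := mult_iso f p.2
  change _ ↔ ((Equiv.simpleGraph e) p.1).IsTree ∧
    mult t r ((Equiv.simpleGraph e) p.1) (e p.2) = k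
  rw [h1, h2]

theorem mult_le [Finite V] (T : SimpleGraph V) (u : V) : mult t r T u ≤ Nat.card V :=
  Nat.card_le_card_of_injective _ Subtype.val_injective

theorem rec1 (hC : S_COP) (hG : S_GLUE) (S V : Type) [Fintype S] [Fintype V] (t : SimpleGraph S)
    (r : S) (k : ℕ) (ht : t.IsTree) : aut t r * (k + 1) * Z V t r (k + 1) =
      (Fintype.card V).descFactorial (Fintype.card S) *
        Z (Fin (Fintype.card V - Fintype.card S)) t r k := by
  classical
  set Q : Type := {q : (SimpleGraph V × V) × (S → V) // q.1.1.IsTree ∧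
    IsCopy t r q.1.1 q.1.2 q.2 ∧ mult t r q.1.1 q.1.2 = k + 1} with hQ
  let P : Type := {p : SimpleGraph V × V // p.1.IsTree ∧ mult t r p.1 p.2 = k + 1}
  have : Fintype P := Fintype.ofFinite P
  let I : Type := {φ : S → V // Function.Injective φ}
  have : Fintype I := Fintype.ofFinite I
  let e1 : Q ≃ Σ p : P, {φ : S → V // IsCopy t r p.1.1 p.1.2 φ} :=
    { toFun := fun q => ⟨⟨q.1.1, q.2.1, q.2.2.2⟩, ⟨q.1.2, q.2.2.1⟩⟩
      invFun := fun x => ⟨(x.1.1, x.2.1), x.1.2.1, x.2.2, x.1.2.2⟩
      left_inv := fun _ => rfl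
      right_inv := fun _ => rfl }
  let e2 : Q ≃ Σ φ : I, {p : SimpleGraph V × V // p.1.IsTree ∧ IsCopy t r p.1 p.2 φ.1 ∧
      mult t r p.1 p.2 = k + 1} :=
    { toFun := fun q => ⟨⟨q.1.2, q.2.2.1.1⟩, ⟨q.1.1, q.2.1, q.2.2.1, q.2.2.2⟩⟩
      invFun := fun x => ⟨(x.2.1, x.1.1), x.2.2.1, x.2.2.2.1, x.2.2.2.2⟩
      left_inv := fun _ => rfl
      right_inv := fun _ => rfl }
  have c1 : Nat.card Q = Z V t r (k + 1) * (aut t r * (k + 1)) := by
    rw [Nat.card_congr e1, Nat.card_sigma]
    have : ∀ p : P, Nat.card {φ : S → V // IsCopy t r p.1.1 p.1.2 φ} = aut t r * (k + 1) := by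
      intro p
      rw [(hC S V t r p.1.1 p.1.2).1, p.2.2]
    rw [Finset.sum_congr rfl fun p _ => this p, Finset.sum_const, Finset.card_univ,
      smul_eq_mul, ← Nat.card_eq_fintype_card]
    rfl
  have c2 : Nat.card Q = (Fintype.card V).descFactorial (Fintype.card S) *
      Z (Fin (Fintype.card V - Fintype.card S)) t r k := by
    rw [Nat.card_congr e2, Nat.card_sigma]
    have : ∀ φ : I, Nat.card {p : SimpleGraph V × V // p.1.IsTree ∧ IsCopy t r p.1 p.2 φ.1 ∧
      mult t r p.1 p.2 = k + 1} = Z (Fin (Fintype.card V - Fintype.card S)) t r k := by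
      intro φ
      rw [hG S V t r k φ.1 ht φ.2]
      refine Z_congr (Fintype.equivFinOfCardEq ?_) t r k
      rw [Fintype.card_subtype_compl]
      congr 1
      have h1 : Fintype.card {v : V // v ∈ Set.range φ.1} = Fintype.card S :=
        (Fintype.card_congr (Equiv.ofInjective φ.1 φ.2)).symm
      exact h1
    rw [Finset.sum_congr rfl fun φ _ => this φ, Finset.sum_const, Finset.card_univ, smul_eq_mul]
    congr 1
    rw [← Fintype.card_embedding_eq]
    exact Fintype.card_congr (Equiv.subtypeInjectiveEquivEmbedding S V)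
  rw [← c2, c1]
  ring

theorem recZ (hC : S_COP) (hG : S_GLUE) : S_REC := by
  classical
  refine ⟨rec1 hC hG, ?_, ?_, ?_⟩
  · intro S _ t r k
    unfold Z
    rw [Nat.card_eq_zero]
    left
    exact ⟨fun p => p.1.2.elim0⟩
  · intro S _ t r n k hk
    unfold Z
    rw [Nat.card_eq_zero]
    left
    refine ⟨fun p => ?_⟩
    have h1 := mult_le (t := t) (r := r) p.1.1 p.1.2
    rw [p.2.2, Nat.card_eq_fintype_card, Fintype.card_fin] at h1
    omega
  · intro S _ t r n hn
    have h1 : ∑ k ∈ Finset.range (n + 1), Z (Fin n) t r k =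
        Nat.card {p : SimpleGraph (Fin n) × Fin n // p.1.IsTree} := by
      have e : {p : SimpleGraph (Fin n) × Fin n // p.1.IsTree} ≃
          Σ k : Fin (n + 1), {p : SimpleGraph (Fin n) × Fin n // p.1.IsTree ∧
            mult t r p.1 p.2 = k} :=
        { toFun := fun p => ⟨⟨mult t r p.1.1 p.1.2, by
              have h1 := mult_le (t := t) (r := r) p.1.1 p.1.2
              rw [Nat.card_eq_fintype_card, Fintype.card_fin] at h1
              omega⟩, ⟨p.1, p.2, rfl⟩⟩
          invFun := fun x => ⟨x.2.1, x.2.2.1⟩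
          left_inv := fun _ => rfl
          right_inv := fun x => by
            obtain ⟨⟨k, hk⟩, ⟨p, hp1, hp2⟩⟩ := x
            change mult t r p.1 p.2 = k at hp2
            subst hp2
            rfl }
      rw [Nat.card_congr e, Nat.card_sigma, Finset.sum_range]
      rfl
    have h2 : Nat.card {p : SimpleGraph (Fin n) × Fin n // p.1.IsTree} =
        Nat.card ({T : SimpleGraph (Fin n) // T.IsTree} × Fin n) :=
      Nat.card_congr
        { toFun := fun p => (⟨p.1.1, p.2⟩, p.1.2)
          invFun := fun x => ⟨(x.1.1, x.2), x.1.2⟩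
          left_inv := fun _ => rfl
          right_inv := fun _ => rfl }
    have h3 := Pool.Agent.TH272.WH.card_trees_eq hn
    have h4 : Nat.card {T : SimpleGraph (Fin n) // T.IsTree} = n ^ (n - 2) := h3
    rw [h1, h2, Nat.card_prod, h4, Nat.card_eq_fintype_card, Fintype.card_fin]
    rcases Nat.eq_or_lt_of_le hn with h5 | h5
    · rw [← h5]; norm_num
    · rw [← pow_succ]
      congr 1
      omega

end Pool.Agent.Q209.FV
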