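import Pool.Agent.Q109.FV.Stm

set_option autoImplicit false

/-! Double counting over labelled branches (project FV of helper109, MP_20afc1_co). -/

namespace Pool.Agent.Q209.FV

open Q109.FV

open Classical in
/-- cardinalities of subtypes as sums -/
theorem card_eq_sum {α : Type} [Fintype α] (P : α → Prop) :
    (Nat.card {a : α // P a} : ℝ) = ∑ a, if P a then (1 : ℝ) else 0 := by
  rw [Finset.sum_boole, Nat.card_eq_fintype_card, Fintype.card_subtype]

theorem mult_le' {S : Type} {n : ℕ} (t : SimpleGraph S) (r : S) (T : SimpleGraph (Fin n))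
    (u : Fin n) : mult t r T u ≤ n := by
  have : mult t r T u ≤ Nat.card (Fin n) :=
    Nat.card_le_card_of_injective _ Subtype.val_injective
  rwa [Nat.card_eq_fintype_card, Fintype.card_fin] at this

theorem card_Br_of_copy {V : Type} [Finite V] {s : ℕ} {t : SimpleGraph (Fin s)} {r : Fin s}
    {T : SimpleGraph V} {u : V} {φ : Fin s → V} (h : IsCopy t r T u φ) :
    Nat.card (Br T u (φ r)) = s := by
  rw [← h.2.2.1, Nat.card_congr (Equiv.ofInjective φ h.1).symm, Nat.card_eq_fintype_card,
    Fintype.card_fin]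

open Classical in
theorem lab_sum (hL : S_LAB) (n s : ℕ) (T : SimpleGraph (Fin n)) (hT : T.IsTree)
    (u x : Fin n) :
    (∑ t : SimpleGraph (Fin s), ∑ r : Fin s, ∑ φ : Fin s → Fin n,
      if t.IsTree ∧ IsCopy t r T u φ ∧ φ r = x then (1 : ℝ) else 0) =
      if T.Adj u x ∧ Nat.card (Br T u x) = s then (s.factorial : ℝ) else 0 := by
  by_cases h : T.Adj u x ∧ Nat.card (Br T u x) = s
  · rw [if_pos h, ← hL (Fin n) T hT u x s h.1 h.2, card_eq_sum, Fintype.sum_prod_type,
      Fintype.sum_prod_type]
    congr!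
  · rw [if_neg h]
    refine Finset.sum_eq_zero fun t _ => Finset.sum_eq_zero fun r _ =>
      Finset.sum_eq_zero fun φ _ => ?_
    rw [if_neg]
    rintro ⟨_, hc, rfl⟩
    exact h ⟨hc.2.1, card_Br_of_copy hc⟩

open Classical in
theorem sum_gen (hC : S_COP) (hL : S_LAB) (n s : ℕ)
    (g : SimpleGraph (Fin n) → Fin n → Fin n → ℝ) (h : SimpleGraph (Fin s) → Fin s → ℕ → ℝ)
    (hgh : ∀ (t : SimpleGraph (Fin s)) (r : Fin s) (T : SimpleGraph (Fin n)) (u : Fin n)
      (φ : Fin s → Fin n), IsCopy t r T u φ → g T u (φ r) = h t r (mult t r T u)) :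
    (s.factorial : ℝ) * ∑ T ∈ trees n, ∑ u, ∑ x,
      (if T.Adj u x ∧ Nat.card (Br T u x) = s then g T u x else 0) =
    ∑ t ∈ trees s, ∑ r : Fin s, ∑ k ∈ Finset.range (n + 1),
      (aut t r : ℝ) * k * h t r k * (Z (Fin n) t r k : ℝ) := by
  -- left side
  have h1 : (s.factorial : ℝ) * ∑ T ∈ trees n, ∑ u, ∑ x,
      (if T.Adj u x ∧ Nat.card (Br T u x) = s then g T u x else 0) =
      ∑ T ∈ trees n, ∑ u, ∑ x, ∑ t ∈ trees s, ∑ r : Fin s, ∑ φ : Fin s → Fin n,
        if IsCopy t r T u φ ∧ φ r = x then g T u x else 0 := by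
    rw [Finset.mul_sum]
    refine Finset.sum_congr rfl fun T hT => ?_
    rw [Finset.mul_sum]
    refine Finset.sum_congr rfl fun u _ => ?_
    rw [Finset.mul_sum]
    refine Finset.sum_congr rfl fun x _ => ?_
    have hT' : T.IsTree := (Finset.mem_filter.1 hT).2
    have h2 := lab_sum hL n s T hT' u x
    have h3 : (s.factorial : ℝ) * (if T.Adj u x ∧ Nat.card (Br T u x) = s then g T u x else 0) =
        (if T.Adj u x ∧ Nat.card (Br T u x) = s then (s.factorial : ℝ) else 0) * g T u x := by
      split_ifs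
      · rfl
      · rw [mul_zero, zero_mul]
    rw [h3, ← h2, Finset.sum_mul]
    unfold trees
    rw [Finset.sum_filter]
    refine Finset.sum_congr rfl fun t _ => ?_
    by_cases ht : t.IsTree
    · rw [if_pos ht, Finset.sum_mul]
      refine Finset.sum_congr rfl fun r _ => ?_
      rw [Finset.sum_mul]
      refine Finset.sum_congr rfl fun φ _ => ?_
      simp only [ht, true_and, ite_mul, one_mul, zero_mul]
    · rw [if_neg ht]
      have : ∀ (r : Fin s) (φ : Fin s → Fin n),
          (if t.IsTree ∧ IsCopy t r T u φ ∧ φ r = x then (1 : ℝ) else 0) = 0 :=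
        fun r φ => if_neg fun h => ht h.1
      simp only [this, Finset.sum_const_zero, zero_mul]
  rw [h1]
  -- interchange
  have h2 : ∑ T ∈ trees n, ∑ u, ∑ x, ∑ t ∈ trees s, ∑ r : Fin s, ∑ φ : Fin s → Fin n,
        (if IsCopy t r T u φ ∧ φ r = x then g T u x else 0) =
      ∑ t ∈ trees s, ∑ r : Fin s, ∑ T ∈ trees n, ∑ u, ∑ φ : Fin s → Fin n,
        if IsCopy t r T u φ then g T u (φ r) else 0 := by
    have h3 : ∀ (T : SimpleGraph (Fin n)) (u : Fin n),
        (∑ x, ∑ t ∈ trees s, ∑ r : Fin s, ∑ φ : Fin s → Fin n,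
          if IsCopy t r T u φ ∧ φ r = x then g T u x else 0) =
        ∑ t ∈ trees s, ∑ r : Fin s, ∑ φ : Fin s → Fin n,
          if IsCopy t r T u φ then g T u (φ r) else 0 := by
      intro T u
      rw [Finset.sum_comm]
      refine Finset.sum_congr rfl fun t _ => ?_
      rw [Finset.sum_comm]
      refine Finset.sum_congr rfl fun r _ => ?_
      rw [Finset.sum_comm]
      refine Finset.sum_congr rfl fun φ _ => ?_
      by_cases hc : IsCopy t r T u φ
      · simp only [hc, true_and, if_true]
        rw [Finset.sum_ite_eq Finset.univ (φ r), if_pos (Finset.mem_univ _)]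
      · simp only [hc, false_and, if_false, Finset.sum_const_zero]
    simp only [h3]
    have h4 : ∀ T : SimpleGraph (Fin n), (∑ u : Fin n, ∑ t ∈ trees s, ∑ r : Fin s,
        ∑ φ : Fin s → Fin n, if IsCopy t r T u φ then g T u (φ r) else 0) =
        ∑ t ∈ trees s, ∑ r : Fin s, ∑ u : Fin n, ∑ φ : Fin s → Fin n,
          if IsCopy t r T u φ then g T u (φ r) else 0 := by
      intro T
      rw [Finset.sum_comm]
      refine Finset.sum_congr rfl fun t _ => ?_
      rw [Finset.sum_comm]
    simp only [h4]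
    rw [Finset.sum_comm]
    refine Finset.sum_congr rfl fun t _ => ?_
    rw [Finset.sum_comm]
  rw [h2]
  refine Finset.sum_congr rfl fun t _ => Finset.sum_congr rfl fun r _ => ?_
  -- the number of copies
  have h3 : ∀ (T : SimpleGraph (Fin n)) (u : Fin n), (∑ φ : Fin s → Fin n,
      if IsCopy t r T u φ then g T u (φ r) else 0) =
      (aut t r : ℝ) * (mult t r T u : ℕ) * h t r (mult t r T u) := by
    intro T u
    have h4 : ∀ φ : Fin s → Fin n, (if IsCopy t r T u φ then g T u (φ r) else 0) =
        (if IsCopy t r T u φ then (1 : ℝ) else 0) * h t r (mult t r T u) := by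
      intro φ
      split_ifs with hc
      · rw [one_mul, hgh t r T u φ hc]
      · rw [zero_mul]
    simp only [h4]
    rw [← Finset.sum_mul, ← card_eq_sum, (hC (Fin s) (Fin n) t r T u).1]
    push_cast
    ring
  simp only [h3]
  have h5 : ∀ (T : SimpleGraph (Fin n)) (u : Fin n),
      (aut t r : ℝ) * (mult t r T u : ℕ) * h t r (mult t r T u) =
      ∑ k ∈ Finset.range (n + 1), if mult t r T u = k then (aut t r : ℝ) * k * h t r k else 0 := by
    intro T u
    rw [Finset.sum_ite_eq, if_pos]
    rw [Finset.mem_range]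
    have := mult_le' t r T u
    omega
  simp only [h5]
  have h6 : ∀ T : SimpleGraph (Fin n), (∑ u : Fin n, ∑ k ∈ Finset.range (n + 1),
      if mult t r T u = k then (aut t r : ℝ) * k * h t r k else 0) =
      ∑ k ∈ Finset.range (n + 1), ∑ u : Fin n,
        if mult t r T u = k then (aut t r : ℝ) * k * h t r k else 0 := fun T => Finset.sum_comm
  simp only [h6]
  rw [Finset.sum_comm]
  refine Finset.sum_congr rfl fun k _ => ?_
  unfold Z
  rw [card_eq_sum, Fintype.sum_prod_type, Finset.mul_sum]
  unfold trees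
  rw [Finset.sum_filter]
  refine Finset.sum_congr rfl fun T _ => ?_
  by_cases hT : T.IsTree
  · rw [if_pos hT, Finset.mul_sum]
    refine Finset.sum_congr rfl fun u _ => ?_
    simp only [hT, true_and, mul_ite, mul_one, mul_zero]
  · rw [if_neg hT]
    simp only [hT, false_and, if_false, Finset.sum_const_zero, mul_zero]

theorem sum_range_Icc (f : ℕ → ℝ) (c n : ℕ) (h : ∀ k, k < c → f k = 0) :
    ∑ k ∈ Finset.range (n + 1), f k = ∑ k ∈ Finset.Icc c n, f k := by
  symm
  apply Finset.sum_subset
  · intro k hk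
    rw [Finset.mem_Icc] at hk
    rw [Finset.mem_range]
    omega
  · intro k hk hk'
    rw [Finset.mem_Icc] at hk'
    rw [Finset.mem_range] at hk
    exact h k (by omega)

open Classical in
theorem wit_sum (hU : S_UNIQ) (n : ℕ) (T : SimpleGraph (Fin n)) (hT : T.IsTree) :
    (Nat.card {v : Fin n // Wit T v} : ℝ) = ∑ u, ∑ x,
      if Twin T u x then (Nat.card (BF T u x) : ℝ) else 0 := by
  rw [card_eq_sum]
  have h1 : ∀ v : Fin n, (if Wit T v then (1 : ℝ) else 0) =
      ∑ u, ∑ x, if Twin T u x ∧ v ∈ BF T u x then (1 : ℝ) else 0 := by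
    intro v
    rw [← Fintype.sum_prod_type' (f := fun u x =>
      if Twin T u x ∧ v ∈ BF T u x then (1 : ℝ) else 0)]
    split_ifs with hv
    · obtain ⟨p, hp, hp2⟩ := hU (Fin n) T hT v hv
      rw [Finset.sum_eq_single p]
      · rw [if_pos hp]
      · intro q _ hq
        rw [if_neg fun h => hq (hp2 q h)]
      · intro h
        exact absurd (Finset.mem_univ _) h
    · symm
      refine Finset.sum_eq_zero fun q _ => ?_
      rw [if_neg]
      rintro ⟨h1, h2⟩
      exact hv ⟨q.1, q.2, h1, h2.1⟩
  simp only [h1]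
  rw [Finset.sum_comm]
  refine Finset.sum_congr rfl fun u _ => ?_
  rw [Finset.sum_comm]
  refine Finset.sum_congr rfl fun x _ => ?_
  by_cases ht : Twin T u x
  · rw [if_pos ht]
    simp only [ht, true_and]
    rw [← card_eq_sum]
  · rw [if_neg ht]
    simp only [ht, false_and, if_false, Finset.sum_const_zero]

theorem sumZ (hU : S_UNIQ) (hC : S_COP) (hL : S_LAB) : S_SUM := by
  classical
  intro n
  refine ⟨?_, fun s => ?_⟩
  · set g : SimpleGraph (Fin n) → Fin n → Fin n → ℝ := fun T u x =>
      if Twin T u x then (Nat.card (BF T u x) : ℝ) else 0 with hg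
    have h1 : ∀ s : ℕ, (1 / (s.factorial : ℝ)) * ∑ t ∈ trees s, ∑ r : Fin s,
        (rfix t r : ℝ) * ∑ k ∈ Finset.Icc 2 n, (aut t r : ℝ) * k * (Z (Fin n) t r k : ℝ) =
        ∑ T ∈ trees n, ∑ u, ∑ x,
          (if T.Adj u x ∧ Nat.card (Br T u x) = s then g T u x else 0) := by
      intro s
      have h2 := sum_gen hC hL n s g (fun t r k => if 2 ≤ k then (rfix t r : ℝ) else 0) (by
        intro t r T u φ hφ
        have h3 := (hC (Fin s) (Fin n) t r T u).2 φ hφ
        simp only [hg]
        by_cases h4 : 2 ≤ mult t r T u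
        · rw [if_pos (h3.1.2 h4), if_pos h4, h3.2]
        · rw [if_neg fun h => h4 (h3.1.1 h), if_neg h4])
      have hs : (s.factorial : ℝ) ≠ 0 := by exact_mod_cast Nat.factorial_ne_zero s
      rw [one_div, inv_mul_eq_iff_eq_mul₀ hs, h2]
      refine Finset.sum_congr rfl fun t _ => Finset.sum_congr rfl fun r _ => ?_
      rw [sum_range_Icc _ 2 n (fun k hk => by
        rw [if_neg (by omega)]
        ring), Finset.mul_sum]
      refine Finset.sum_congr rfl fun k hk => ?_
      rw [if_pos (Finset.mem_Icc.1 hk).1]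
      ring
    rw [Finset.sum_congr rfl fun s _ => h1 s, Finset.sum_comm]
    refine Finset.sum_congr rfl fun T hT => ?_
    have hT' : T.IsTree := (Finset.mem_filter.1 hT).2
    have hcomm : (∑ s ∈ Finset.range (n + 1), ∑ u : Fin n, ∑ x : Fin n,
        (if T.Adj u x ∧ Nat.card (Br T u x) = s then g T u x else 0)) =
        ∑ u : Fin n, ∑ x : Fin n, ∑ s ∈ Finset.range (n + 1),
        (if T.Adj u x ∧ Nat.card (Br T u x) = s then g T u x else 0) := by
      rw [Finset.sum_comm]
      exact Finset.sum_congr rfl fun u _ => Finset.sum_comm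
    rw [wit_sum hU n T hT', hcomm]
    refine Finset.sum_congr rfl fun u _ => ?_
    refine Finset.sum_congr rfl fun x _ => ?_
    by_cases ht : Twin T u x
    · have hcard : Nat.card (Br T u x) ≤ n := by
        have : Nat.card (Br T u x) ≤ Nat.card (Fin n) :=
          Nat.card_le_card_of_injective _ Subtype.val_injective
        rwa [Nat.card_eq_fintype_card (α := Fin n), Fintype.card_fin] at this
      simp only [ht.1, true_and]
      rw [Finset.sum_ite_eq, if_pos (Finset.mem_range.2 (by omega))]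
    · symm
      rw [if_neg ht]
      refine Finset.sum_eq_zero fun s _ => ?_
      simp only [hg]
      rw [if_neg ht, ite_self]
  · have h2 := sum_gen hC hL n s (fun _ _ _ => 1) (fun _ _ _ => 1) (fun _ _ _ _ _ _ => rfl)
    have hs : (s.factorial : ℝ) ≠ 0 := by exact_mod_cast Nat.factorial_ne_zero s
    rw [one_div, eq_inv_mul_iff_mul_eq₀ hs]
    have h3 : ∀ T : SimpleGraph (Fin n), (Nat.card {p : Fin n × Fin n // T.Adj p.1 p.2 ∧
        Nat.card (Br T p.1 p.2) = s} : ℝ) = ∑ u, ∑ x,
          (if T.Adj u x ∧ Nat.card (Br T u x) = s then (1 : ℝ) else 0) := by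
      intro T
      rw [card_eq_sum, Fintype.sum_prod_type]
      congr!
    simp only [h3]
    rw [h2]
    refine Finset.sum_congr rfl fun t _ => Finset.sum_congr rfl fun r _ => ?_
    rw [sum_range_Icc _ 1 n (fun k hk => by
        rw [show k = 0 by omega]
        simp)]
    refine Finset.sum_congr rfl fun k _ => ?_
    ring

end Pool.Agent.Q209.FV
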